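import Pool.Agent.Helper25.HC.J3

/-!
# The base case at the threshold `T = 10`
-/

set_option autoImplicit false

namespace Pool.Agent.Helper25.HC

open Set Pool.Agent.Helper65.HC

/-! ### numbers -/

lemma log_eleven : 2.39789 < Real.log 11 ∧ Real.log 11 < 2.3979 := by
  have h2 := Real.log_two_gt_d9
  have h2' := Real.log_two_lt_d9
  have e : 2 * Real.log 11 = 7 * Real.log 2 - Real.log (128 / 121) := by
    rw [Real.log_div (by norm_num) (by norm_num), show (128 : ℝ) = 2 ^ 7 by norm_num,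
      show (121 : ℝ) = 11 ^ 2 by norm_num, Real.log_pow, Real.log_pow]
    push_cast
    ring
  have h3 := log_pade (show (1 : ℝ) ≤ 128 / 121 by norm_num)
  have h4 := log_pade_lower (show (1 : ℝ) ≤ 128 / 121 by norm_num)
  norm_num at h3 h4
  constructor <;> linarith

lemma aa_ten_mul : aa 10 * (Real.log 11 - 10 / 11) = 100 / 121 := by
  unfold aa hl
  have h := log_eleven
  have h0 : (1 : ℝ) + 10 = 11 := by norm_num
  rw [h0]
  have h1 : Real.log 11 - 10 / 11 ≠ 0 := by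
    have := h.1
    have : (0 : ℝ) < Real.log 11 - 10 / 11 := by
      norm_num at this ⊢
      linarith
    exact this.ne'
  rw [div_mul_cancel₀ _ h1]
  norm_num

lemma aa_ten : 0.5551 < aa 10 ∧ aa 10 < 0.55512 := by
  have h := aa_ten_mul
  have h1 := log_eleven
  have ha := aa_pos (show (0 : ℝ) < 10 by norm_num)
  constructor
  · by_contra hc
    push Not at hc
    have h2 : aa 10 * (Real.log 11 - 10 / 11) ≤ 0.5551 * (Real.log 11 - 10 / 11) :=
      mul_le_mul_of_nonneg_right hc (by norm_num at h1 ⊢; linarith)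
    norm_num at h1 h2 h
    linarith
  · by_contra hc
    push Not at hc
    have h2 : 0.55512 * (Real.log 11 - 10 / 11) ≤ aa 10 * (Real.log 11 - 10 / 11) :=
      mul_le_mul_of_nonneg_right hc (by norm_num at h1 ⊢; linarith)
    norm_num at h1 h2 h
    linarith

lemma gg_ten : gg 10 = 1 / 11 := by
  unfold gg
  norm_num

/-! ### the level curve starting below `(1 + k L) / (1 + L)` -/

lemma be_le_pade {x : ℝ} (hx : 0 < x) : be x ≤ (1 + x) * (x + 6) / (6 * (x + 2)) := by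
  have h1 := log_pade (show (1 : ℝ) ≤ 1 + x by linarith)
  unfold be hl
  rw [div_le_div_iff₀ (by positivity) (by positivity)]
  have h2 : Real.log (1 + x) - x / (1 + x) ≤ x ^ 2 * (x + 6) / (6 * (1 + x) * (x + 2)) := by
    have e : (1 + x - 1) * ((1 + x) ^ 2 + 10 * (1 + x) + 1) / (6 * ((1 + x) * (1 + x + 1))) =
        x / (1 + x) + x ^ 2 * (x + 6) / (6 * (1 + x) * (x + 2)) := by
      have : (1 : ℝ) + x ≠ 0 := by linarith
      have : (1 : ℝ) + x + 1 ≠ 0 := by linarith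
      have : x + 2 ≠ 0 := by linarith
      have e2 : (1 : ℝ) + x + 1 = x + 2 := by ring
      rw [e2]
      field_simp
      ring
    linarith
  have h3 : (1 + x) ^ 2 * (Real.log (1 + x) - x / (1 + x)) * (6 * (x + 2)) ≤
      (1 + x) ^ 2 * (x ^ 2 * (x + 6) / (6 * (1 + x) * (x + 2))) * (6 * (x + 2)) := by
    have := mul_le_mul_of_nonneg_left h2 (show (0 : ℝ) ≤ (1 + x) ^ 2 by positivity)
    exact mul_le_mul_of_nonneg_right this (by linarith)
  refine h3.trans (le_of_eq ?_)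
  have : (1 : ℝ) + x ≠ 0 := by linarith
  have : x + 2 ≠ 0 := by linarith
  field_simp

lemma bd_ge_pade {x : ℝ} (hx : 0 < x) : 2 / (3 * (x + 2)) ≤ bd x := by
  have h1 := log_pade (show (1 : ℝ) ≤ 1 + x by linarith)
  unfold bd
  rw [le_div_iff₀ (by positivity)]
  have h2 : 2 * (1 + x) * Real.log (1 + x) ≤
      2 * (1 + x) * ((1 + x - 1) * ((1 + x) ^ 2 + 10 * (1 + x) + 1) / (6 * ((1 + x) * (1 + x + 1)))) :=
    mul_le_mul_of_nonneg_left h1 (by linarith)
  have e : 2 * (1 + x) * ((1 + x - 1) * ((1 + x) ^ 2 + 10 * (1 + x) + 1) / (6 * ((1 + x) * (1 + x + 1)))) =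
      x ^ 2 + 2 * x - 2 / (3 * (x + 2)) * x ^ 3 := by
    have e2 : (1 : ℝ) + x + 1 = x + 2 := by ring
    rw [e2]
    have : (1 : ℝ) + x ≠ 0 := by linarith
    have : x + 2 ≠ 0 := by linarith
    field_simp
    ring
  rw [e] at h2
  linarith

lemma tf_be {T x : ℝ} (hT : 0 < T) (hx : 0 < x) :
    tf T x = aa T * (gg x ^ 2 * (be T - be x)) := by
  have hbT := be_pos hT
  unfold tf
  rw [aa_eq, uu_eq hx]
  field_simp

lemma td_be {T x : ℝ} (hT : 0 < T) (hx : 0 < x) :
    td T x = aa T * (gg x ^ 2 * (2 * gg x * (be T - be x) + bd x)) := by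
  have hbT := be_pos hT
  have e3 : (2 * hl x - (x / (1 + x)) ^ 2) / x ^ 3 = gg x ^ 2 * (2 * gg x * be x - bd x) := by
    unfold gg be bd hl
    have : (1 : ℝ) + x ≠ 0 := by linarith
    field_simp
    ring
  unfold td
  rw [e3, aa_eq]
  field_simp
  ring

/-- `(1+x) |t'| ≥ 2 t` -/
lemma td_ge_two {T x : ℝ} (hT : 0 < T) (hx : 0 < x) : 2 * tf T x ≤ (1 + x) * td T x := by
  rw [tf_be hT hx, td_be hT hx]
  have h1 := aa_pos hT
  have h2 := gg_pos hx.le
  have h3 := bd_pos hx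
  have h4 : gg x * (1 + x) = 1 := by
    unfold gg
    have : (1 : ℝ) + x ≠ 0 := by linarith
    field_simp
  have e : (1 + x) * (aa T * (gg x ^ 2 * (2 * gg x * (be T - be x) + bd x))) -
      2 * (aa T * (gg x ^ 2 * (be T - be x))) = aa T * gg x * bd x := by
    linear_combination (aa T * gg x * (2 * gg x * (be T - be x) + bd x)) * h4
  have h5 : 0 ≤ aa T * gg x * bd x := by positivity
  linarith

/-- the supersolution inequality for `k = 2/7` on `(0, 7/4]` -/
lemma super_ineq {x : ℝ} (hx : 0 < x) (hx1 : x ≤ 7 / 4) :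
    5 / 7 / (1 + x) ^ 2 ≤ (1 + x) ^ 2 * td 10 x - (1 + x) * (1 + 2 / 7 * x) * tf 10 x := by
  have hT : (0 : ℝ) < 10 := by norm_num
  have hM := aa_ten
  have hM0 := aa_pos hT
  rw [tf_be hT hx, td_be hT hx]
  have h1 := be_le_pade hx
  have h2 := bd_ge_pade hx
  have hb : aa 10 * be 10 = 1 := by
    rw [aa_eq]
    have := (be_pos hT).ne'
    field_simp
  have e : (1 + x) ^ 2 * (aa 10 * (gg x ^ 2 * (2 * gg x * (be 10 - be x) + bd x))) -
      (1 + x) * (1 + 2 / 7 * x) * (aa 10 * (gg x ^ 2 * (be 10 - be x))) =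
      (1 - 2 / 7 * x) * (1 - aa 10 * be x) / (1 + x) + aa 10 * bd x := by
    have h3 : (1 : ℝ) + x ≠ 0 := by linarith
    have e1 : aa 10 * (gg x ^ 2 * (2 * gg x * (be 10 - be x) + bd x)) =
        gg x ^ 2 * (2 * gg x * (aa 10 * be 10 - aa 10 * be x) + aa 10 * bd x) := by ring
    have e2 : aa 10 * (gg x ^ 2 * (be 10 - be x)) = gg x ^ 2 * (aa 10 * be 10 - aa 10 * be x) := by ring
    rw [e1, e2, hb]
    unfold gg
    field_simp
    ring
  rw [e]
  have h3 : aa 10 * be x ≤ aa 10 * ((1 + x) * (x + 6) / (6 * (x + 2))) :=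
    mul_le_mul_of_nonneg_left h1 hM0.le
  have h4 : aa 10 * (2 / (3 * (x + 2))) ≤ aa 10 * bd x := mul_le_mul_of_nonneg_left h2 hM0.le
  have h5 : (1 - 2 / 7 * x) * (1 - aa 10 * ((1 + x) * (x + 6) / (6 * (x + 2)))) / (1 + x) ≤
      (1 - 2 / 7 * x) * (1 - aa 10 * be x) / (1 + x) :=
    div_le_div_of_nonneg_right (mul_le_mul_of_nonneg_left (by linarith) (by linarith)) (by linarith)
  have h6 : 5 / 7 / (1 + x) ^ 2 ≤
      (1 - 2 / 7 * x) * (1 - aa 10 * ((1 + x) * (x + 6) / (6 * (x + 2)))) / (1 + x) +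
        aa 10 * (2 / (3 * (x + 2))) := by
    have e3 : (1 - 2 / 7 * x) * (1 - aa 10 * ((1 + x) * (x + 6) / (6 * (x + 2)))) / (1 + x) +
        aa 10 * (2 / (3 * (x + 2))) - 5 / 7 / (1 + x) ^ 2 =
        ((7 - 2 * x) * (1 + x) * (6 * (x + 2) - aa 10 * ((1 + x) * (x + 6))) +
          28 * (1 + x) ^ 2 * aa 10 - 30 * (x + 2)) / (42 * (x + 2) * (1 + x) ^ 2) := by
      have : (1 : ℝ) + x ≠ 0 := by linarith
      have : x + 2 ≠ 0 := by linarith
      field_simp
      ring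
    have h7 : 0 ≤ (7 - 2 * x) * (1 + x) * (6 * (x + 2) - aa 10 * ((1 + x) * (x + 6))) +
          28 * (1 + x) ^ 2 * aa 10 - 30 * (x + 2) := by
      have h8 : 0 ≤ (7 - 2 * x) * (1 + x) := mul_nonneg (by linarith) (by linarith)
      have h9 : 6 * (x + 2) - 0.55512 * ((1 + x) * (x + 6)) ≤ 6 * (x + 2) - aa 10 * ((1 + x) * (x + 6)) := by
        have : aa 10 * ((1 + x) * (x + 6)) ≤ 0.55512 * ((1 + x) * (x + 6)) :=
          mul_le_mul_of_nonneg_right hM.2.le (by positivity)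
        linarith
      have h10 := mul_le_mul_of_nonneg_left h9 h8
      have h11 : 28 * (1 + x) ^ 2 * 0.5551 ≤ 28 * (1 + x) ^ 2 * aa 10 :=
        mul_le_mul_of_nonneg_left hM.1.le (by positivity)
      have h12 : 0 ≤ (7 - 2 * x) * (1 + x) * (6 * (x + 2) - 0.55512 * ((1 + x) * (x + 6))) +
          28 * (1 + x) ^ 2 * 0.5551 - 30 * (x + 2) := by
        nlinarith [mul_nonneg hx.le (show (0 : ℝ) ≤ 7 / 4 - x by linarith),
          mul_nonneg (mul_nonneg hx.le hx.le) (show (0 : ℝ) ≤ 7 / 4 - x by linarith),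
          mul_nonneg (mul_nonneg (mul_nonneg hx.le hx.le) hx.le) (show (0 : ℝ) ≤ 7 / 4 - x by linarith),
          pow_pos hx 2, pow_pos hx 3, pow_pos hx 4]
      linarith
    have h13 : 0 ≤ ((7 - 2 * x) * (1 + x) * (6 * (x + 2) - aa 10 * ((1 + x) * (x + 6))) +
          28 * (1 + x) ^ 2 * aa 10 - 30 * (x + 2)) / (42 * (x + 2) * (1 + x) ^ 2) :=
      div_nonneg h7 (by positivity)
    rw [← e3] at h13
    linarith
  linarith

/-- the barrier for the level curve -/
lemma Yc_barrier {a y x : ℝ} (ha : 0 < a) (hax : a ≤ x) (hx : x ≤ 7 / 4)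
    (hy : y * (1 + a) ≤ 1 + 2 / 7 * a) : Yc 10 a y x * (1 + x) ≤ 1 + 2 / 7 * x := by
  have hT : (0 : ℝ) < 10 := by norm_num
  have hx0 : 0 < x := ha.trans_le hax
  have key : MonotoneOn (fun x => Ef 10 x * ((1 + 2 / 7 * x) / (1 + x)) - Jf 10 x) (Icc a (7 / 4)) := by
    have hd : ∀ z : ℝ, 0 < z → HasDerivAt (fun x => Ef 10 x * ((1 + 2 / 7 * x) / (1 + x)) - Jf 10 x)
        (Ef 10 z * ((1 + z) ^ 2 * td 10 z - (1 + z) * (1 + 2 / 7 * z) * tf 10 z -
          5 / 7 / (1 + z) ^ 2)) z := by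
      intro z hz
      have h0 : (1 : ℝ) + z ≠ 0 := by linarith
      have h1 : HasDerivAt (fun x : ℝ => (1 + 2 / 7 * x) / (1 + x)) (-(5 / 7 / (1 + z) ^ 2)) z := by
        refine ((((hasDerivAt_id z).const_mul (2 / 7)).const_add 1).div
          ((hasDerivAt_id z).const_add 1) h0).congr_deriv ?_
        simp only [id]
        field_simp
        ring
      refine (((hasDerivAt_Ef hT hz).mul h1).sub (hasDerivAt_Jf hT hz)).congr_deriv ?_
      unfold Qf Pf
      field_simp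
      ring
    refine monotoneOn_of_deriv_nonneg (convex_Icc a (7 / 4)) ?_ ?_ ?_
    · exact fun z hz => (hd z (ha.trans_le hz.1)).continuousAt.continuousWithinAt
    · intro z hz
      rw [interior_Icc] at hz
      exact (hd z (ha.trans hz.1)).differentiableAt.differentiableWithinAt
    · intro z hz
      rw [interior_Icc] at hz
      rw [(hd z (ha.trans hz.1)).deriv]
      have h1 := super_ineq (ha.trans hz.1) hz.2.le
      exact mul_nonneg (Ef_pos _ _).le (by linarith)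
  have h1 := key ⟨le_rfl, hax.trans hx⟩ ⟨hax, hx⟩ hax
  simp only at h1
  have h2 : y ≤ (1 + 2 / 7 * a) / (1 + a) := by
    rw [le_div_iff₀ (by linarith)]
    exact hy
  have h3 := mul_le_mul_of_nonneg_left h2 (Ef_pos 10 a).le
  unfold Yc
  rw [div_mul_eq_mul_div, div_le_iff₀ (Ef_pos _ _)]
  have h4 : (Ef 10 a * y - Jf 10 a + Jf 10 x) ≤ Ef 10 x * ((1 + 2 / 7 * x) / (1 + x)) := by linarith
  have h5 := mul_le_mul_of_nonneg_right h4 (show (0 : ℝ) ≤ 1 + x by linarith)
  refine h5.trans (le_of_eq ?_)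
  have h0 : (1 : ℝ) + x ≠ 0 := by linarith
  field_simp

/-- semigroup property of the level curves -/
lemma Yc_comp (T a y b x : ℝ) : Yc T b (Yc T a y b) x = Yc T a y x := by
  have h1 := (Ef_pos T b).ne'
  have h2 := (Ef_pos T x).ne'
  unfold Yc
  field_simp
  ring

lemma Yc_self (T a y : ℝ) : Yc T a y a = y := by
  have h1 := (Ef_pos T a).ne'
  unfold Yc
  field_simp
  ring

/-- `|t'| ≥ Y t` on the right -/
lemma td_ge_Yc {a y x : ℝ} (ha : 0 < a) (ha1 : a ≤ 7 / 4) (hax : a ≤ x) (hx : x ≤ 10)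
    (hy : y * (1 + a) ≤ 1 + 2 / 7 * a) : Yc 10 a y x * tf 10 x ≤ td 10 x := by
  have hT : (0 : ℝ) < 10 := by norm_num
  have hx0 : 0 < x := ha.trans_le hax
  rcases le_total x (7 / 4) with h | h
  · have h1 := Yc_barrier ha hax h hy
    have h2 := tf_nonneg hx0 hx
    have h3 := td_ge_two hT hx0
    have h4 : Yc 10 a y x * (1 + x) * tf 10 x ≤ 2 * tf 10 x :=
      mul_le_mul_of_nonneg_right (by linarith) h2
    have h5 : (1 + x) * (Yc 10 a y x * tf 10 x) ≤ (1 + x) * td 10 x := by linarith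
    exact le_of_mul_le_mul_left h5 (by linarith)
  · have h1 := Yc_barrier ha ha1 le_rfl hy
    have h2 : Yc 10 a y (7 / 4) ≤ 6 * gg 10 := by
      rw [gg_ten]
      norm_num at h1 ⊢
      linarith
    have h3 := (Yc_sign (show (0 : ℝ) < 7 / 4 by norm_num) (by norm_num : (7 / 4 : ℝ) ≤ 10) h2 hx0 hx).1 h
    rw [Yc_comp] at h3
    exact td_ge hx0 hx (h3.trans h2)

/-- the main computation below the barrier -/
lemma phi_nonneg' {a b y : ℝ} (ha : 0 < a) (ha1 : a ≤ 7 / 4) (hb : 0 < b) (hbT : b ≤ 10)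
    (hy : y * (1 + a) ≤ 1 + 2 / 7 * a) :
    0 ≤ y * (sM (aa 10) a - sM (aa 10) b) + gg a ^ 2 * (y - Yc 10 a y b) + (tf 10 b - tf 10 a) := by
  have hT : (0 : ℝ) < 10 := by norm_num
  have haT : a ≤ 10 := by linarith
  set Φ : ℝ → ℝ := fun x => y * (sM (aa 10) a - sM (aa 10) x) + gg a ^ 2 * (y - Yc 10 a y x) +
    (tf 10 x - tf 10 a) with hΦ
  have hd : ∀ x : ℝ, 0 < x → HasDerivAt Φ (y * tf 10 x - td 10 x +
      gg a ^ 2 * (1 + x) ^ 2 * (td 10 x - Yc 10 a y x * tf 10 x)) x := by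
    intro x hx
    refine (((((hasDerivAt_sM (aa 10) hx).const_sub _).const_mul y).add
      (((hasDerivAt_Yc hT hx).const_sub y).const_mul (gg a ^ 2))).add
      ((hasDerivAt_t 10 hx).sub_const _)).congr_deriv ?_
    unfold tf
    ring
  have h0 : Φ a = 0 := by
    rw [hΦ]
    simp only [Yc_self]
    ring
  have hga : gg a = 1 / (1 + a) := rfl
  rcases le_total a b with h | h
  · -- the curve decreases
    have hYanti : AntitoneOn (Yc 10 a y) (Icc a 10) := by
      refine antitoneOn_of_deriv_nonpos (convex_Icc a 10) ?_ ?_ ?_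
      · exact fun x hx => (hasDerivAt_Yc hT (ha.trans_le hx.1)).continuousAt.continuousWithinAt
      · intro x hx
        rw [interior_Icc] at hx
        exact (hasDerivAt_Yc hT (ha.trans hx.1)).differentiableAt.differentiableWithinAt
      · intro x hx
        rw [interior_Icc] at hx
        rw [(hasDerivAt_Yc hT (ha.trans hx.1)).deriv]
        have := td_ge_Yc ha ha1 hx.1.le hx.2.le hy
        exact mul_nonpos_of_nonneg_of_nonpos (by positivity) (by linarith)
    have key : MonotoneOn Φ (Icc a 10) := by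
      refine monotoneOn_of_deriv_nonneg (convex_Icc a 10) ?_ ?_ ?_
      · exact fun x hx => (hd x (ha.trans_le hx.1)).continuousAt.continuousWithinAt
      · intro x hx
        rw [interior_Icc] at hx
        exact (hd x (ha.trans hx.1)).differentiableAt.differentiableWithinAt
      · intro x hx
        rw [interior_Icc] at hx
        have hx0 : 0 < x := ha.trans hx.1
        rw [(hd x hx0).deriv]
        have h1 : Yc 10 a y x ≤ y := by
          have := hYanti ⟨le_rfl, haT⟩ ⟨hx.1.le, hx.2.le⟩ hx.1.le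
          rwa [Yc_self] at this
        have h2 := tf_nonneg hx0 hx.2.le
        have h3 := td_ge_Yc ha ha1 hx.1.le hx.2.le hy
        have h4 : 1 ≤ gg a ^ 2 * (1 + x) ^ 2 := by
          rw [hga, ← mul_pow]
          have : 1 ≤ 1 / (1 + a) * (1 + x) := by
            rw [one_div, ← div_eq_inv_mul, le_div_iff₀ (by linarith)]
            linarith [hx.1]
          exact one_le_pow₀ this
        have h5 : y * tf 10 x - Yc 10 a y x * tf 10 x ≥ 0 := by nlinarith
        nlinarith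
    have := key ⟨le_rfl, haT⟩ ⟨h, hbT⟩ h
    rw [h0] at this
    exact this
  · have hyt : ∀ x, 0 < x → x ≤ a → y * tf 10 x ≤ td 10 x := by
      intro x hx hxa
      have h2 := tf_nonneg hx (hxa.trans haT)
      have h3 := td_ge_two hT hx
      have h6 : y * (1 + x) ≤ 2 := by
        rcases le_or_gt y 0 with hy0 | hy0
        · have : y * (1 + x) ≤ 0 := mul_nonpos_of_nonpos_of_nonneg hy0 (by linarith)
          linarith
        · have : y * (1 + x) ≤ y * (1 + a) := mul_le_mul_of_nonneg_left (by linarith) hy0.le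
          linarith
      have h4 : y * (1 + x) * tf 10 x ≤ 2 * tf 10 x := mul_le_mul_of_nonneg_right h6 h2
      have h5 : (1 + x) * (y * tf 10 x) ≤ (1 + x) * td 10 x := by linarith
      exact le_of_mul_le_mul_left h5 (by linarith)
    have hYge : ∀ x, 0 < x → x ≤ a → y ≤ Yc 10 a y x := by
      have key : AntitoneOn (fun x => Ef 10 a * y - Jf 10 a + Jf 10 x - Ef 10 x * y) (Ioc 0 a) := by
        have hd' : ∀ z : ℝ, 0 < z → HasDerivAt (fun x => Ef 10 a * y - Jf 10 a + Jf 10 x - Ef 10 x * y)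
            (-(Ef 10 z * (1 + z) ^ 2 * (td 10 z - y * tf 10 z))) z := by
          intro z hz
          refine (((hasDerivAt_Jf hT hz).const_add _).sub ((hasDerivAt_Ef hT hz).mul_const y)).congr_deriv ?_
          unfold Qf Pf
          ring
        refine antitoneOn_of_deriv_nonpos (convex_Ioc 0 a) ?_ ?_ ?_
        · exact fun z hz => (hd' z hz.1).continuousAt.continuousWithinAt
        · intro z hz
          rw [interior_Ioc] at hz
          exact (hd' z hz.1).differentiableAt.differentiableWithinAt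
        · intro z hz
          rw [interior_Ioc] at hz
          rw [(hd' z hz.1).deriv]
          have h1 := hyt z hz.1 hz.2.le
          have h2 := Ef_pos 10 z
          have h3 : 0 ≤ Ef 10 z * (1 + z) ^ 2 * (td 10 z - y * tf 10 z) :=
            mul_nonneg (by positivity) (by linarith)
          linarith
      intro x hx hxa
      have := key ⟨hx, hxa⟩ ⟨ha, le_rfl⟩ hxa
      simp only at this
      unfold Yc
      rw [le_div_iff₀ (Ef_pos _ _)]
      linarith
    have key : AntitoneOn Φ (Ioc 0 a) := by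
      refine antitoneOn_of_deriv_nonpos (convex_Ioc 0 a) ?_ ?_ ?_
      · exact fun x hx => (hd x hx.1).continuousAt.continuousWithinAt
      · intro x hx
        rw [interior_Ioc] at hx
        exact (hd x hx.1).differentiableAt.differentiableWithinAt
      · intro x hx
        rw [interior_Ioc] at hx
        rw [(hd x hx.1).deriv]
        have hxT : x ≤ 10 := hx.2.le.trans haT
        have h1 := hYge x hx.1 hx.2.le
        have h2 := tf_nonneg hx.1 hxT
        have h3 := hyt x hx.1 hx.2.le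
        have h4 : gg a ^ 2 * (1 + x) ^ 2 ≤ 1 := by
          rw [hga, ← mul_pow]
          have h6 : 1 / (1 + a) * (1 + x) ≤ 1 := by
            rw [one_div, ← div_eq_inv_mul, div_le_one (by linarith)]
            linarith [hx.2]
          have h7 : 0 ≤ 1 / (1 + a) * (1 + x) :=
            mul_nonneg (by positivity) (by linarith [hx.1])
          exact pow_le_one₀ h7 h6
        have h8 : 0 ≤ gg a ^ 2 * (1 + x) ^ 2 := by positivity
        have h5 : td 10 x - Yc 10 a y x * tf 10 x ≤ td 10 x - y * tf 10 x := by nlinarith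
        nlinarith [mul_le_mul_of_nonneg_left h5 h8]
    have := key ⟨hb, h⟩ ⟨ha, le_rfl⟩ h
    rw [h0] at this
    exact this

/-- `B_vx ≥ 0` below the barrier -/
theorem B_nonneg' {Lv Lx yv yx : ℝ} (hv : 0 < Lv) (hv1 : Lv ≤ 7 / 4) (hx : 0 < Lx)
    (hy : yv * (1 + Lv) ≤ 1 + 2 / 7 * Lv) (h : Lam 10 Lx yx ≤ Lam 10 Lv yv) :
    0 ≤ Bvx 10 Lv yv Lx yx := by
  have hT : (0 : ℝ) < 10 := by norm_num
  have hvm : min Lv 10 = Lv := min_eq_left (by linarith)
  have hb : 0 < min Lx 10 := lt_min hx hT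
  have h1 := phi_nonneg' hv hv1 hb (min_le_right _ _) hy
  have h2 : yx ≤ Yc 10 Lv yv (min Lx 10) := by
    unfold Yc
    rw [le_div_iff₀ (Ef_pos _ _)]
    unfold Lam at h
    rw [hvm] at h
    linarith
  unfold Bvx
  rw [tt_eq_tf hT, tt_eq_tf hT, hvm]
  unfold sg
  rw [hvm]
  have h3 : gg Lv ^ 2 * (yv - Yc 10 Lv yv (min Lx 10)) ≤ gg Lv ^ 2 * (yv - yx) :=
    mul_le_mul_of_nonneg_left (by linarith) (by positivity)
  linarith

/-! ### the remaining case -/

lemma cT_ten : cT 10 = (aa 10 - 1 / 11) / 11 := by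
  unfold cT
  rw [gg_ten]
  ring

lemma ss_ten {L : ℝ} (hL : 0 < L) (h : L ≤ 10) :
    ss 10 L = 1 / (1 + L) - aa 10 * (Real.log (1 + L) / L) + (aa 10 - 1 / 11) / 11 := by
  have h1 := neg_sg_top (show (0 : ℝ) < 10 by norm_num)
  rw [gg_ten] at h1
  unfold ss
  rw [sg, min_eq_left h, sM, ph_of_pos hL]
  unfold gg
  linarith

lemma ss_poly {l : ℝ} (h1 : 1 ≤ l) (h2 : l ≤ 10) :
    0 ≤ -(197012 / 10000000) * (l * (1 + l) ^ 2 * (l ^ 2 + 6 * l + 6)) - l ^ 2 * (l ^ 2 + 6 * l + 6) +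
      5551 / 10000 * (3 * (l + 2) * (l - 1) * (1 + l) ^ 2 + (1 + l) * (l ^ 2 + 6 * l + 6)) := by
  have h3 : 0 ≤ -(197012 / 10000000) * l ^ 2 + 4467742896 / 10000000000 * l + 6051914567824 / 10000000000000 := by
    nlinarith
  have h4 := mul_nonneg (mul_nonneg (sq_nonneg (l - 773 / 500)) h3) (show (0 : ℝ) ≤ l by linarith)
  have h5 : 0 ≤ l * (10 - l) := mul_nonneg (by linarith) (by linarith)
  nlinarith

/-- `s - t ≤ 0.0225` -/
lemma ss_sub_le {l : ℝ} (hl0 : 0 < l) (hl1 : l ≤ 10) : ss 10 l - tf 10 l ≤ 9 / 400 := by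
  have hM1 : (5551 / 10000 : ℝ) < aa 10 := by
    have := aa_ten.1
    norm_num at this ⊢
    linarith
  have hM2 : aa 10 < (55512 / 100000 : ℝ) := by
    have := aa_ten.2
    norm_num at this ⊢
    linarith
  have e : ss 10 l - tf 10 l = l / (1 + l) ^ 2 + (aa 10 - 1 / 11) / 11 -
      aa 10 * (Real.log (1 + l) * (l - 1) / l ^ 2 + 1 / (l * (1 + l))) := by
    rw [ss_ten hl0 hl1]
    unfold tf gg uu hl
    have : (1 : ℝ) + l ≠ 0 := by linarith
    field_simp
    ring
  rw [e]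
  have hM0 : 0 ≤ aa 10 := by linarith
  rcases le_total l 1 with h | h
  · have h1 := log_le_sub_inv (show (1 : ℝ) ≤ 1 + l by linarith)
    have h2 : Real.log (1 + l) * (1 - l) / l ^ 2 ≤ ((1 + l - (1 + l)⁻¹) / 2) * (1 - l) / l ^ 2 :=
      div_le_div_of_nonneg_right (mul_le_mul_of_nonneg_right (by linarith) (by linarith)) (by positivity)
    have h3 : 1 / 2 ≤ Real.log (1 + l) * (l - 1) / l ^ 2 + 1 / (l * (1 + l)) := by
      have e1 : Real.log (1 + l) * (l - 1) / l ^ 2 = -(Real.log (1 + l) * (1 - l) / l ^ 2) := by ring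
      have e2 : ((1 + l - (1 + l)⁻¹) / 2) * (1 - l) / l ^ 2 = 1 / (l * (1 + l)) - 1 / 2 := by
        have : (1 : ℝ) + l ≠ 0 := by linarith
        field_simp
        ring
      rw [e1]
      rw [e2] at h2
      linarith
    have h4 : aa 10 * (1 / 2) ≤ aa 10 * (Real.log (1 + l) * (l - 1) / l ^ 2 + 1 / (l * (1 + l))) :=
      mul_le_mul_of_nonneg_left h3 hM0
    have h5 : l / (1 + l) ^ 2 ≤ 1 / 4 := by
      rw [div_le_div_iff₀ (by positivity) (by norm_num)]
      nlinarith [sq_nonneg (l - 1)]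
    linarith
  · have h1 := log_pade_lower (show (1 : ℝ) ≤ 1 + l by linarith)
    have e1 : 3 * ((1 + l) ^ 2 - 1) / ((1 + l) ^ 2 + 4 * (1 + l) + 1) =
        3 * l * (l + 2) / (l ^ 2 + 6 * l + 6) := by
      congr 1 <;> ring
    rw [e1] at h1
    have h2 : 3 * l * (l + 2) / (l ^ 2 + 6 * l + 6) * (l - 1) / l ^ 2 ≤
        Real.log (1 + l) * (l - 1) / l ^ 2 :=
      div_le_div_of_nonneg_right (mul_le_mul_of_nonneg_right h1 (by linarith)) (by positivity)
    have h3 : aa 10 * (3 * l * (l + 2) / (l ^ 2 + 6 * l + 6) * (l - 1) / l ^ 2 + 1 / (l * (1 + l))) ≤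
        aa 10 * (Real.log (1 + l) * (l - 1) / l ^ 2 + 1 / (l * (1 + l))) :=
      mul_le_mul_of_nonneg_left (by linarith) hM0
    have h4 : 5551 / 10000 * (3 * l * (l + 2) / (l ^ 2 + 6 * l + 6) * (l - 1) / l ^ 2 + 1 / (l * (1 + l))) ≤
        aa 10 * (3 * l * (l + 2) / (l ^ 2 + 6 * l + 6) * (l - 1) / l ^ 2 + 1 / (l * (1 + l))) := by
      refine mul_le_mul_of_nonneg_right hM1.le ?_
      have : 0 ≤ l - 1 := by linarith
      positivity
    have h5 : l / (1 + l) ^ 2 + 422012 / 10000000 - 5551 / 10000 *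
        (3 * l * (l + 2) / (l ^ 2 + 6 * l + 6) * (l - 1) / l ^ 2 + 1 / (l * (1 + l))) ≤ 9 / 400 := by
      have e2 : 9 / 400 - (l / (1 + l) ^ 2 + 422012 / 10000000 - 5551 / 10000 *
        (3 * l * (l + 2) / (l ^ 2 + 6 * l + 6) * (l - 1) / l ^ 2 + 1 / (l * (1 + l)))) =
        (-(197012 / 10000000) * (l * (1 + l) ^ 2 * (l ^ 2 + 6 * l + 6)) - l ^ 2 * (l ^ 2 + 6 * l + 6) +
          5551 / 10000 * (3 * (l + 2) * (l - 1) * (1 + l) ^ 2 + (1 + l) * (l ^ 2 + 6 * l + 6))) /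
          (l * (1 + l) ^ 2 * (l ^ 2 + 6 * l + 6)) := by
        have : (1 : ℝ) + l ≠ 0 := by linarith
        have : l ^ 2 + 6 * l + 6 ≠ 0 := by positivity
        field_simp
        ring
      have h6 := div_nonneg (ss_poly h hl1) (show 0 ≤ l * (1 + l) ^ 2 * (l ^ 2 + 6 * l + 6) by positivity)
      rw [← e2] at h6
      linarith
    linarith

/-- `G ≥ 0` at `y = (1 + k L)/(1 + L)`, divided by `L / (1 + L)` -/
lemma G_div {L : ℝ} (hL : 0 < L) (hL1 : L ≤ 7 / 4) :
    0 ≤ 2 / 7 + (1 + 2 / 7 * L) * ((aa 10 - 1 / 11) / 11) - 9 / 400 * (1 + L) +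
      aa 10 * ((1 + 2 / 7 * L) * Real.log (1 + 2 / 7 * L) / L +
        (1 - 2 / 7 * L ^ 2) * Real.log (1 + L) / L ^ 2 - 1 / L - 2 / 7) := by
  have hM1 : (5551 / 10000 : ℝ) < aa 10 := by
    have := aa_ten.1
    norm_num at this ⊢
    linarith
  have hM2 : aa 10 < (55512 / 100000 : ℝ) := by
    have := aa_ten.2
    norm_num at this ⊢
    linarith
  have hM0 : 0 ≤ aa 10 := by linarith
  have h1 := log_pade_lower (show (1 : ℝ) ≤ 1 + L by linarith)
  have e1 : 3 * ((1 + L) ^ 2 - 1) / ((1 + L) ^ 2 + 4 * (1 + L) + 1) =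
      3 * L * (L + 2) / (L ^ 2 + 6 * L + 6) := by
    congr 1 <;> ring
  rw [e1] at h1
  have h2 := Real.le_log_one_add_of_nonneg (show (0 : ℝ) ≤ 2 / 7 * L by positivity)
  have h3 : 0 ≤ 1 - 2 / 7 * L ^ 2 := by nlinarith
  have h4 : (1 - 2 / 7 * L ^ 2) * (3 * L * (L + 2) / (L ^ 2 + 6 * L + 6)) / L ^ 2 ≤
      (1 - 2 / 7 * L ^ 2) * Real.log (1 + L) / L ^ 2 :=
    div_le_div_of_nonneg_right (mul_le_mul_of_nonneg_left h1 h3) (by positivity)
  have h5 : (1 + 2 / 7 * L) * (2 * (2 / 7 * L) / (2 / 7 * L + 2)) / L ≤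
      (1 + 2 / 7 * L) * Real.log (1 + 2 / 7 * L) / L :=
    div_le_div_of_nonneg_right (mul_le_mul_of_nonneg_left h2 (by positivity)) hL.le
  have e2 : (1 + 2 / 7 * L) * (2 * (2 / 7 * L) / (2 / 7 * L + 2)) / L +
      (1 - 2 / 7 * L ^ 2) * (3 * L * (L + 2) / (L ^ 2 + 6 * L + 6)) / L ^ 2 - 1 / L - 2 / 7 =
      -(((3 + L + 6 / 7 * L * (L + 2)) * (14 + 2 * L) - 4 / 7 * L * (L ^ 2 + 6 * L + 6)) /
        ((L ^ 2 + 6 * L + 6) * (14 + 2 * L))) := by
    have a1 : L ^ 2 + 6 * L + 6 ≠ 0 := by positivity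
    have a2 : 14 + 2 * L ≠ 0 := by positivity
    have a3 : 2 / 7 * L + 2 ≠ 0 := by positivity
    field_simp
    ring
  have h6 : aa 10 * (-(((3 + L + 6 / 7 * L * (L + 2)) * (14 + 2 * L) - 4 / 7 * L * (L ^ 2 + 6 * L + 6)) /
        ((L ^ 2 + 6 * L + 6) * (14 + 2 * L)))) ≤
      aa 10 * ((1 + 2 / 7 * L) * Real.log (1 + 2 / 7 * L) / L +
        (1 - 2 / 7 * L ^ 2) * Real.log (1 + L) / L ^ 2 - 1 / L - 2 / 7) := by
    rw [← e2]
    exact mul_le_mul_of_nonneg_left (by linarith) hM0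
  have h7 : 0 ≤ ((3 + L + 6 / 7 * L * (L + 2)) * (14 + 2 * L) - 4 / 7 * L * (L ^ 2 + 6 * L + 6)) /
        ((L ^ 2 + 6 * L + 6) * (14 + 2 * L)) := by
    refine div_nonneg ?_ (by positivity)
    nlinarith [pow_pos hL 2, pow_pos hL 3]
  have h8 : aa 10 * (((3 + L + 6 / 7 * L * (L + 2)) * (14 + 2 * L) - 4 / 7 * L * (L ^ 2 + 6 * L + 6)) /
        ((L ^ 2 + 6 * L + 6) * (14 + 2 * L))) ≤
      55512 / 100000 * (((3 + L + 6 / 7 * L * (L + 2)) * (14 + 2 * L) - 4 / 7 * L * (L ^ 2 + 6 * L + 6)) /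
        ((L ^ 2 + 6 * L + 6) * (14 + 2 * L))) := mul_le_mul_of_nonneg_right hM2.le h7
  have h9 : 55512 / 100000 * (((3 + L + 6 / 7 * L * (L + 2)) * (14 + 2 * L) - 4 / 7 * L * (L ^ 2 + 6 * L + 6)) /
        ((L ^ 2 + 6 * L + 6) * (14 + 2 * L))) ≤
      2 / 7 + (1 + 2 / 7 * L) * (42199 / 1000000) - 9 / 400 * (1 + L) := by
    rw [mul_div_assoc', div_le_iff₀ (by positivity)]
    nlinarith [mul_pos hL hL, mul_pos (mul_pos hL hL) hL, mul_nonneg hL.le (sub_nonneg.2 hL1),
      mul_nonneg (mul_pos hL hL).le (sub_nonneg.2 hL1), mul_nonneg (mul_pos (mul_pos hL hL) hL).le (sub_nonneg.2 hL1)]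
  have h10 : (1 + 2 / 7 * L) * (42199 / 1000000) ≤ (1 + 2 / 7 * L) * ((aa 10 - 1 / 11) / 11) :=
    mul_le_mul_of_nonneg_left (by linarith) (by positivity)
  linarith

/-- convexity of `y log (y/g) - y` -/
lemma conv_log {y y0 g : ℝ} (hy : 0 < y) (hy0 : 0 < y0) (hg : 0 < g) :
    y * Real.log (y0 / g) - y0 ≤ y * Real.log (y / g) - y := by
  have h1 := Real.log_le_sub_one_of_pos (div_pos hy0 hy)
  rw [Real.log_div hy0.ne' hy.ne'] at h1
  rw [Real.log_div hy0.ne' hg.ne', Real.log_div hy.ne' hg.ne']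
  have h2 := mul_le_mul_of_nonneg_left h1 hy.le
  have h3 : y * (y0 / y - 1) = y0 - y := by field_simp
  rw [h3] at h2
  linarith

/-- `G ≥ 0` at `y = (1 + k L)/(1 + L)` -/
lemma G_at {L : ℝ} (hL : 0 < L) (hL1 : L ≤ 7 / 4) :
    0 ≤ gg 10 * ((1 + 2 / 7 * L) / (1 + L) - gg 10) +
      aa 10 * ((1 + 2 / 7 * L) / (1 + L) * Real.log ((1 + 2 / 7 * L) / (1 + L) / gg 10) -
        (1 + 2 / 7 * L) / (1 + L) + gg 10) +
      (1 + 2 / 7 * L) / (1 + L) * (cT 10 * (L - 10)) - ss 10 L - 9 / 400 * L := by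
  have h1 := G_div hL hL1
  have h2 : Real.log ((1 + 2 / 7 * L) / (1 + L) / gg 10) =
      Real.log 11 + Real.log (1 + 2 / 7 * L) - Real.log (1 + L) := by
    rw [gg_ten, Real.log_div (by positivity) (by norm_num), Real.log_div (by positivity) (by positivity),
      one_div, Real.log_inv]
    ring
  have h3 : aa 10 * Real.log 11 = 100 / 121 + 10 / 11 * aa 10 := by
    have := aa_ten_mul
    linarith
  rw [h2, ss_ten hL (by linarith), cT_ten, gg_ten]
  have e : 1 / 11 * ((1 + 2 / 7 * L) / (1 + L) - 1 / 11) +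
      aa 10 * ((1 + 2 / 7 * L) / (1 + L) * (Real.log 11 + Real.log (1 + 2 / 7 * L) - Real.log (1 + L)) -
        (1 + 2 / 7 * L) / (1 + L) + 1 / 11) +
      (1 + 2 / 7 * L) / (1 + L) * ((aa 10 - 1 / 11) / 11 * (L - 10)) -
      (1 / (1 + L) - aa 10 * (Real.log (1 + L) / L) + (aa 10 - 1 / 11) / 11) - 9 / 400 * L =
      L / (1 + L) * (2 / 7 + (1 + 2 / 7 * L) * ((aa 10 - 1 / 11) / 11) - 9 / 400 * (1 + L) +
      aa 10 * ((1 + 2 / 7 * L) * Real.log (1 + 2 / 7 * L) / L +
        (1 - 2 / 7 * L ^ 2) * Real.log (1 + L) / L ^ 2 - 1 / L - 2 / 7)) := by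
    have e1 : aa 10 * ((1 + 2 / 7 * L) / (1 + L) * (Real.log 11 + Real.log (1 + 2 / 7 * L) - Real.log (1 + L)) -
        (1 + 2 / 7 * L) / (1 + L) + 1 / 11) = (1 + 2 / 7 * L) / (1 + L) * (aa 10 * Real.log 11) +
        aa 10 * ((1 + 2 / 7 * L) / (1 + L) * (Real.log (1 + 2 / 7 * L) - Real.log (1 + L)) -
        (1 + 2 / 7 * L) / (1 + L) + 1 / 11) := by ring
    rw [e1, h3]
    have : (1 : ℝ) + L ≠ 0 := by linarith
    field_simp
    ring
  rw [e]
  exact mul_nonneg (by positivity) h1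

lemma log_six_gt : (1.7834 : ℝ) < Real.log 6 := by
  have h4 := Real.le_log_one_add_of_nonneg (show (0 : ℝ) ≤ 1 / 2 by norm_num)
  have h5 : Real.log 6 = 2 * Real.log 2 + Real.log (1 + 1 / 2) := by
    rw [← log_four_eq, ← Real.log_mul (by norm_num) (by norm_num)]
    norm_num
  have h6 := Real.log_two_gt_d9
  norm_num at h4
  norm_num at h5
  linarith

/-- `G ≥ 0` above the barrier, `L ≤ 7/4` -/
lemma G_nonneg {L y : ℝ} (hL : 0 < L) (hL1 : L ≤ 7 / 4) (hy : 1 + 2 / 7 * L ≤ y * (1 + L)) :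
    0 ≤ CT 10 y + y * (cT 10 * (L - 10)) - ss 10 L - 9 / 400 * L := by
  have hT : (0 : ℝ) < 10 := by norm_num
  have hM1 : (5551 / 10000 : ℝ) < aa 10 := by
    have := aa_ten.1
    norm_num at this ⊢
    linarith
  have hM2 : aa 10 < (55512 / 100000 : ℝ) := by
    have := aa_ten.2
    norm_num at this ⊢
    linarith
  have h0 := G_at hL hL1
  set y0 := (1 + 2 / 7 * L) / (1 + L) with hy0
  have hy0pos : 0 < y0 := by positivity
  have hyy : y0 ≤ y := by
    rw [hy0, div_le_iff₀ (by linarith)]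
    exact hy
  have hy6 : 6 / 11 ≤ y0 := by
    rw [hy0, div_le_div_iff₀ (by norm_num) (by linarith)]
    linarith
  have hypos : 0 < y := hy0pos.trans_le hyy
  have h1 := conv_log hypos hy0pos (gg_pos hT.le)
  have hlog : Real.log 6 ≤ Real.log (y0 / gg 10) := by
    refine Real.log_le_log (by norm_num) ?_
    rw [gg_ten]
    linarith
  have hl6 := log_six_gt
  have h2 : aa 10 * (y * Real.log (y0 / gg 10) - y0 + gg 10) ≤
      aa 10 * (y * Real.log (y / gg 10) - y + gg 10) :=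
    mul_le_mul_of_nonneg_left (by linarith) (by linarith)
  have h3 : 0 ≤ (y - y0) * (gg 10 + aa 10 * Real.log (y0 / gg 10) + cT 10 * (L - 10)) := by
    refine mul_nonneg (by linarith) ?_
    rw [cT_ten, gg_ten]
    have h4 : 5551 / 10000 * 1.7834 ≤ aa 10 * Real.log (y0 / (1 / 11)) := by
      rw [gg_ten] at hlog
      exact mul_le_mul hM1.le (by linarith) (by norm_num) (by linarith)
    have h5 : (aa 10 - 1 / 11) / 11 * (L - 10) ≥ (aa 10 - 1 / 11) / 11 * (-10) :=
      mul_le_mul_of_nonneg_left (by linarith) (by linarith)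
    norm_num at h4
    linarith
  unfold CT
  have e : gg 10 * (y - gg 10) + aa 10 * (y * Real.log (y0 / gg 10) - y0 + gg 10) +
      y * (cT 10 * (L - 10)) - ss 10 L - 9 / 400 * L =
      (gg 10 * (y0 - gg 10) + aa 10 * (y0 * Real.log (y0 / gg 10) - y0 + gg 10) +
      y0 * (cT 10 * (L - 10)) - ss 10 L - 9 / 400 * L) +
      (y - y0) * (gg 10 + aa 10 * Real.log (y0 / gg 10) + cT 10 * (L - 10)) := by ring
  linarith

/-- `G ≥ 0` for large `L` -/
lemma G_nonneg_large {L y : ℝ} (hL1 : 7 / 4 ≤ L) (hy : 6 / 11 ≤ y) :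
    0 ≤ CT 10 y + y * (cT 10 * (L - 10)) - ss 10 L - 9 / 400 * L := by
  have hM1 : (5551 / 10000 : ℝ) < aa 10 := by
    have := aa_ten.1
    norm_num at this ⊢
    linarith
  have h1 := G_nonneg (L := 7 / 4) (y := y) (by norm_num) le_rfl (by linarith)
  have h2 : ss 10 L ≤ ss 10 (7 / 4) := by
    unfold ss
    have := sg_antitone (T := 10) (by norm_num) (by norm_num : (0 : ℝ) ≤ 7 / 4) hL1
    linarith
  have h3 : 9 / 400 ≤ y * cT 10 := by
    rw [cT_ten]
    have h4 : 6 / 11 * ((5551 / 10000 - 1 / 11) / 11) ≤ y * ((aa 10 - 1 / 11) / 11) :=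
      mul_le_mul hy (by linarith) (by norm_num) (by linarith)
    norm_num at h4
    linarith
  have h5 : 0 ≤ (y * cT 10 - 9 / 400) * (L - 7 / 4) := mul_nonneg (by linarith) (by linarith)
  have e : y * (cT 10 * (L - 10)) - 9 / 400 * L = y * (cT 10 * (7 / 4 - 10)) - 9 / 400 * (7 / 4) +
      (y * cT 10 - 9 / 400) * (L - 7 / 4) := by ring
  linarith

universe u

section graph

open Finset Classical

variable {V : Type u} [Fintype V] {G : SimpleGraph V} {w y : V → ℝ}

lemma Ks_sub_bb_le (hw : ∀ v, 0 ≤ w v) {v : V} (hy0 : 0 ≤ y v) (hy1 : y v ≤ 1) :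
    y v * Ks G 10 w v - bb G 10 w v ≤ 9 / 400 * Lw G w v := by
  have hS : ∑ x ∈ cn G v, w x = Lw G w v := rfl
  rw [← hS]
  unfold Ks bb
  rw [mul_sum, ← sum_sub_distrib, mul_sum]
  refine sum_le_sum fun x _ => ?_
  rcases (hw x).eq_or_lt with h | h
  · rw [← h]; simp
  · have hL : 0 < Lw G w x := Lw_pos' hw h
    have hT : (0 : ℝ) < 10 := by norm_num
    have h1 : y v * ss 10 (Lw G w x) - tt 10 (Lw G w x) ≤ 9 / 400 := by
      rcases le_total 10 (Lw G w x) with h2 | h2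
      · rw [ss_hub h2, tt, if_neg (not_lt.2 h2)]
        norm_num
      · rw [tt_eq_tf hT, min_eq_left h2]
        have h3 := ss_sub_le hL h2
        have h4 := ss_nonneg hT hL.le
        have h5 : y v * ss 10 (Lw G w x) ≤ 1 * ss 10 (Lw G w x) := mul_le_mul_of_nonneg_right hy1 h4
        linarith
    have := mul_le_mul_of_nonneg_left h1 h.le
    linarith

/-- **Base case `T = 10`** -/
theorem base_ten (hc : Crit G 10 w y) : False := by
  have hT : (0 : ℝ) < 10 := by norm_num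
  obtain ⟨v0, hv0⟩ := hc.w_ne
  obtain ⟨v, hv, hmax⟩ := (univ.filter (fun v => 0 < w v)).exists_max_image
    (fun v => Lam 10 (Lw G w v) (y v)) ⟨v0, by simp [hv0]⟩
  rw [mem_filter] at hv
  have hLpos : ∀ x, 0 < w x → 0 < Lw G w x := fun x hx => Lw_pos' hc.w_nonneg hx
  have hLv := hLpos v hv.2
  -- it suffices that all `B_vx` are nonnegative
  have hfin : (∀ x, 0 < w x → 0 ≤ Bvx 10 (Lw G w v) (y v) (Lw G w x) (y x)) → False := by
    intro hB
    have h := step3 G hT hc hv.2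
    have hγ0 : 0 < gg (min (Lw G w v) 10) := gg_pos (lt_min hLv hT).le
    have h1 := D_nonneg (hc.y_pos v) hγ0
    have h2 : 0 ≤ ∑ x ∈ cn G v, w x * Bvx 10 (Lw G w v) (y v) (Lw G w x) (y x) := by
      refine sum_nonneg fun x _ => ?_
      rcases (hc.w_nonneg x).eq_or_lt with h0 | h0
      · rw [← h0, zero_mul]
      · exact mul_nonneg h0.le (hB x h0)
    have h3 := mul_nonneg (hc.y_pos v).le (RR_nonneg G hT hc.w_nonneg v)
    have h4 : 0 ≤ gg 10 * (aa 10 - 2 * gg 10) * (y v * max (Lw G w v - 10) 0) := by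
      have h5 := two_gg_le_aa hT
      have h7 := gg_pos hT.le
      have h8 := hc.y_pos v
      exact mul_nonneg (mul_nonneg h7.le (by linarith)) (mul_nonneg h8.le (le_max_right _ _))
    have h9 := mul_nonneg (aa_pos hT).le h1
    linarith
  by_cases h6 : y v ≤ 6 * gg 10
  · exact hfin fun x hx => B_nonneg hT hLv (hLpos x hx) h6 (hmax x (by simp [hx]))
  · push Not at h6
    rw [gg_ten] at h6
    by_cases h7 : Lw G w v ≤ 7 / 4 ∧ y v * (1 + Lw G w v) ≤ 1 + 2 / 7 * Lw G w v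
    · exact hfin fun x hx => B_nonneg' hLv h7.1 (hLpos x hx) h7.2 (hmax x (by simp [hx]))
    · have hG : 0 ≤ CT 10 (y v) + y v * (cT 10 * (Lw G w v - 10)) - ss 10 (Lw G w v) -
          9 / 400 * Lw G w v := by
        rcases le_total (Lw G w v) (7 / 4) with h8 | h8
        · refine G_nonneg hLv h8 ?_
          by_contra h9
          push Not at h9
          exact h7 ⟨h8, h9.le⟩
        · exact G_nonneg_large h8 (by linarith)
      have h8 := C_neg hT hc hv.2
      have h9 := Ks_sub_bb_le (G := G) hc.w_nonneg (hc.y_pos v).le (hc.y_le v)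
      have h10 := mul_nonneg (hc.y_pos v).le (RR_nonneg G hT hc.w_nonneg v)
      linarith

end graph

end Pool.Agent.Helper25.HC
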