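import Pool.Agent.Helper65.HC.Fun

/-!
# (J1): `6 g(T) t(L) ≤ |t'(L)|` for `0 < L ≤ T`
-/

set_option autoImplicit false

namespace Pool.Agent.Helper25.HC

open Set Pool.Agent.Helper65.HC

/-- `|t'(L)|`, `t = g² - a(T) u` -/
noncomputable def td (T L : ℝ) : ℝ :=
  2 * gg L ^ 3 - aa T * ((2 * hl L - (L / (1 + L)) ^ 2) / L ^ 3)

lemma hasDerivAt_uu {L : ℝ} (h : 0 < L) :
    HasDerivAt uu (-((2 * hl L - (L / (1 + L)) ^ 2) / L ^ 3)) L := by
  have h1 := (hasDerivAt_hl h.le).div (hasDerivAt_pow 2 L) (by positivity)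
  refine h1.congr_deriv ?_
  unfold gg
  have : (1 : ℝ) + L ≠ 0 := by linarith
  field_simp
  ring

/-- `td T` is minus the derivative of `t` -/
lemma hasDerivAt_t (T : ℝ) {L : ℝ} (h : 0 < L) :
    HasDerivAt (fun L => gg L ^ 2 - aa T * uu L) (-(td T L)) L := by
  refine (((hasDerivAt_gg h.le).pow 2).sub ((hasDerivAt_uu h).const_mul (aa T))).congr_deriv ?_
  unfold td
  simp only [Nat.cast_ofNat]
  ring

/-- `β = 1/a` -/
noncomputable def be (L : ℝ) : ℝ := (1 + L) ^ 2 * hl L / L ^ 2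

/-- `β'` -/
noncomputable def bd (L : ℝ) : ℝ := (L ^ 2 + 2 * L - 2 * (1 + L) * Real.log (1 + L)) / L ^ 3

/-- `β''` -/
noncomputable def bdd (L : ℝ) : ℝ :=
  ((4 * (1 + L) + 2) * Real.log (1 + L) - (1 + L) ^ 2 - 4 * (1 + L) + 5) / L ^ 4

lemma be_pos {L : ℝ} (h : 0 < L) : 0 < be L := by
  have := hl_pos h
  unfold be
  positivity

lemma aa_eq {L : ℝ} : aa L = 1 / be L := by
  unfold aa be
  rw [one_div, inv_div, div_pow, div_div]

lemma uu_eq {L : ℝ} (h : 0 < L) : uu L = gg L ^ 2 * be L := by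
  unfold uu gg be
  have : (1 : ℝ) + L ≠ 0 := by linarith
  field_simp

lemma hasDerivAt_be {L : ℝ} (h : 0 < L) : HasDerivAt be (bd L) L := by
  have h0 : HasDerivAt (fun x : ℝ => 1 + x) 1 L := (hasDerivAt_id L).const_add 1
  have h1 := ((h0.pow 2).mul (hasDerivAt_hl h.le)).div (hasDerivAt_pow 2 L) (by positivity)
  refine h1.congr_deriv ?_
  unfold bd gg hl
  simp only [Pi.mul_apply, Pi.pow_apply]
  have : (1 : ℝ) + L ≠ 0 := by linarith
  field_simp
  ring

lemma hasDerivAt_bd {L : ℝ} (h : 0 < L) : HasDerivAt bd (bdd L) L := by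
  have h0 : HasDerivAt (fun x : ℝ => 1 + x) 1 L := (hasDerivAt_id L).const_add 1
  have h2 : HasDerivAt (fun x : ℝ => x ^ 2 + 2 * x - 2 * (1 + x) * Real.log (1 + x))
      (2 * L + 2 - (2 * Real.log (1 + L) + 2 * (1 + L) * gg L)) L := by
    refine (((hasDerivAt_pow 2 L).add ((hasDerivAt_id L).const_mul 2)).sub
      ((h0.const_mul 2).mul (hasDerivAt_log1 h.le))).congr_deriv ?_
    simp only [Nat.cast_ofNat]
    ring
  have h1 := h2.div (hasDerivAt_pow 3 L) (by positivity)
  refine h1.congr_deriv ?_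
  unfold bdd gg
  have : (1 : ℝ) + L ≠ 0 := by linarith
  field_simp
  ring

lemma bd_pos {L : ℝ} (h : 0 < L) : 0 < bd L := by
  unfold bd
  refine div_pos ?_ (by positivity)
  have h1 := two_log_lt (show (1 : ℝ) < 1 + L by linarith)
  have h2 : (1 + L) * (2 * Real.log (1 + L)) < (1 + L) * ((1 + L) - (1 + L)⁻¹) :=
    mul_lt_mul_of_pos_left h1 (by linarith)
  have h3 : (1 + L) * ((1 + L) - (1 + L)⁻¹) = L ^ 2 + 2 * L := by
    have : (1 : ℝ) + L ≠ 0 := by linarith
    field_simp
    ring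
  linarith

/-- Padé type upper bound of the logarithm -/
lemma log_pade {s : ℝ} (hs : 1 ≤ s) :
    Real.log s ≤ (s - 1) * (s ^ 2 + 10 * s + 1) / (6 * (s * (s + 1))) := by
  have key : MonotoneOn (fun s : ℝ => (s - 1) * (s ^ 2 + 10 * s + 1) / (6 * (s * (s + 1))) -
      Real.log s) (Ici 1) := by
    have hd : ∀ x : ℝ, 1 ≤ x → HasDerivAt (fun s : ℝ => (s - 1) * (s ^ 2 + 10 * s + 1) /
        (6 * (s * (s + 1))) - Real.log s) ((x - 1) ^ 4 / (6 * (x * (x + 1)) ^ 2)) x := by
      intro x hx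
      have hx0 : x ≠ 0 := by positivity
      have hx1 : x + 1 ≠ 0 := by positivity
      have e1 : HasDerivAt (fun s : ℝ => (s - 1) * (s ^ 2 + 10 * s + 1))
          ((x ^ 2 + 10 * x + 1) + (x - 1) * (2 * x + 10)) x := by
        refine (((hasDerivAt_id x).sub_const 1).mul
          (((hasDerivAt_pow 2 x).add ((hasDerivAt_id x).const_mul 10)).add_const 1)).congr_deriv ?_
        simp only [id, Nat.cast_ofNat, Pi.add_apply]
        ring
      have e2 : HasDerivAt (fun s : ℝ => 6 * (s * (s + 1))) (6 * (2 * x + 1)) x := by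
        refine (((hasDerivAt_id x).mul ((hasDerivAt_id x).add_const 1)).const_mul 6).congr_deriv ?_
        simp only [id]
        ring
      refine ((e1.div e2 (by positivity)).sub (Real.hasDerivAt_log hx0)).congr_deriv ?_
      field_simp
      ring
    refine monotoneOn_of_deriv_nonneg (convex_Ici 1) ?_ ?_ ?_
    · exact fun x hx => (hd x hx).continuousAt.continuousWithinAt
    · intro x hx
      rw [interior_Ici] at hx
      exact (hd x (le_of_lt hx)).differentiableAt.differentiableWithinAt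
    · intro x hx
      rw [interior_Ici] at hx
      rw [(hd x (le_of_lt hx)).deriv]
      have : (0 : ℝ) < x := lt_trans one_pos hx
      positivity
  have := key (mem_Ici.2 le_rfl) (mem_Ici.2 hs) hs
  simp only [sub_self, zero_mul, zero_div, Real.log_one] at this
  linarith

/-- `β'/2 + (1+L) β'' ≤ 0` -/
lemma bd_log_deriv {L : ℝ} (h : 0 < L) : bd L / 2 + (1 + L) * bdd L ≤ 0 := by
  have h1 := log_pade (show (1 : ℝ) ≤ 1 + L by linarith)
  rw [le_div_iff₀ (by positivity)] at h1
  have e : bd L / 2 + (1 + L) * bdd L =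
      (Real.log (1 + L) * (6 * ((1 + L) * (1 + L + 1))) -
        (1 + L - 1) * ((1 + L) ^ 2 + 10 * (1 + L) + 1)) / (2 * L ^ 4) := by
    unfold bd bdd
    field_simp
    ring
  rw [e]
  exact div_nonpos_of_nonpos_of_nonneg (by linarith) (by positivity)

/-- `sqrt(1+L) β'(L)` is decreasing -/
lemma sqrt_bd_anti : AntitoneOn (fun L => √(1 + L) * bd L) (Ioi 0) := by
  have hd : ∀ x : ℝ, 0 < x → HasDerivAt (fun L => √(1 + L) * bd L)
      ((bd x / 2 + (1 + x) * bdd x) / √(1 + x)) x := by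
    intro x hx
    have h0 : HasDerivAt (fun x : ℝ => 1 + x) 1 x := (hasDerivAt_id x).const_add 1
    have h1 := h0.sqrt (by linarith : (1 : ℝ) + x ≠ 0)
    have hs : 0 < √(1 + x) := Real.sqrt_pos.mpr (by linarith)
    have hs2 : √(1 + x) * √(1 + x) = 1 + x := Real.mul_self_sqrt (by linarith)
    refine (h1.mul (hasDerivAt_bd hx)).congr_deriv ?_
    rw [eq_div_iff hs.ne']
    have e : (1 / (2 * √(1 + x)) * bd x + √(1 + x) * bdd x) * √(1 + x) =
        bd x / 2 + (√(1 + x) * √(1 + x)) * bdd x := by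
      field_simp
    rw [e, hs2]
  refine antitoneOn_of_deriv_nonpos (convex_Ioi 0) ?_ ?_ ?_
  · exact fun x hx => (hd x hx).continuousAt.continuousWithinAt
  · intro x hx
    rw [interior_Ioi] at hx
    exact (hd x hx).differentiableAt.differentiableWithinAt
  · intro x hx
    rw [interior_Ioi] at hx
    rw [(hd x hx).deriv]
    exact div_nonpos_of_nonpos_of_nonneg (bd_log_deriv hx) (Real.sqrt_nonneg _)

/-- the increment of `β` -/
lemma be_incr {L T : ℝ} (hL : 0 < L) (h : L ≤ T) :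
    be T - be L ≤ bd L * (2 * √(1 + L) * (√(1 + T) - √(1 + L))) := by
  have hd : ∀ x : ℝ, 0 < x → HasDerivAt
      (fun x => bd L * (2 * √(1 + L) * (√(1 + x) - √(1 + L))) - (be x - be L))
      (bd L * √(1 + L) / √(1 + x) - bd x) x := by
    intro x hx
    have h0 : HasDerivAt (fun x : ℝ => 1 + x) 1 x := (hasDerivAt_id x).const_add 1
    have h1 := h0.sqrt (by linarith : (1 : ℝ) + x ≠ 0)
    have hs : 0 < √(1 + x) := Real.sqrt_pos.mpr (by linarith)
    refine ((((h1.sub_const _).const_mul _).const_mul _).sub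
      ((hasDerivAt_be hx).sub_const _)).congr_deriv ?_
    field_simp
  have key : MonotoneOn
      (fun x => bd L * (2 * √(1 + L) * (√(1 + x) - √(1 + L))) - (be x - be L)) (Ici L) := by
    refine monotoneOn_of_deriv_nonneg (convex_Ici L) ?_ ?_ ?_
    · exact fun x hx => (hd x (hL.trans_le hx)).continuousAt.continuousWithinAt
    · intro x hx
      rw [interior_Ici] at hx
      exact (hd x (hL.trans hx)).differentiableAt.differentiableWithinAt
    · intro x hx
      rw [interior_Ici] at hx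
      have hx0 : 0 < x := hL.trans hx
      rw [(hd x hx0).deriv]
      have hs : 0 < √(1 + x) := Real.sqrt_pos.mpr (by linarith)
      have h1 := sqrt_bd_anti (mem_Ioi.2 hL) (mem_Ioi.2 hx0) (le_of_lt hx)
      simp only at h1
      rw [sub_nonneg, le_div_iff₀ hs]
      linarith
  have := key (mem_Ici.2 le_rfl) (mem_Ici.2 h) h
  simp only [sub_self, mul_zero] at this
  linarith

lemma be_mono {L T : ℝ} (hL : 0 < L) (h : L ≤ T) : be L ≤ be T := by
  have h1 := aa_le hL h
  rw [aa_eq, aa_eq] at h1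
  exact (one_div_le_one_div (be_pos (hL.trans_le h)) (be_pos hL)).mp h1

/-- (J1) for `β` -/
lemma j1_be {L T : ℝ} (hL : 0 < L) (h : L ≤ T) :
    (be T - be L) * (6 * gg T - 2 * gg L) ≤ bd L := by
  have hb := bd_pos hL
  have hbe : 0 ≤ be T - be L := by linarith [be_mono hL h]
  rcases le_or_gt (6 * gg T - 2 * gg L) 0 with h1 | h1
  · nlinarith
  · set r := √(1 + L) with hr
    set R := √(1 + T) with hR
    have hr2 : r ^ 2 = 1 + L := Real.sq_sqrt (by linarith)
    have hR2 : R ^ 2 = 1 + T := Real.sq_sqrt (by linarith)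
    have hr0 : 0 < r := Real.sqrt_pos.mpr (by linarith)
    have hR0 : 0 < R := Real.sqrt_pos.mpr (by linarith)
    have hrR : r ≤ R := Real.sqrt_le_sqrt (by linarith)
    have h2 := be_incr hL h
    rw [← hr, ← hR] at h2
    have e : 6 * gg T - 2 * gg L = (6 * r ^ 2 - 2 * R ^ 2) / (r ^ 2 * R ^ 2) := by
      unfold gg
      rw [← hr2, ← hR2]
      field_simp
    have h3 : 2 * (R - r) * (6 * r ^ 2 - 2 * R ^ 2) ≤ r * R ^ 2 := by
      -- `4 w³ - 3 w² - 12 w + 12 ≥ 0`, `w = R / r`
      have h4 : 0 ≤ 4 * R ^ 3 - 3 * R ^ 2 * r - 12 * R * r ^ 2 + 12 * r ^ 3 := by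
        nlinarith [mul_nonneg hR0.le (sq_nonneg (R - 1.28 * r)), mul_nonneg hr0.le (sq_nonneg (R - 1.28 * r)),
          pow_pos hr0 3, pow_pos hR0 3, mul_pos hr0 hR0, mul_pos (pow_pos hr0 2) hR0]
      nlinarith
    calc (be T - be L) * (6 * gg T - 2 * gg L)
        ≤ (bd L * (2 * r * (R - r))) * (6 * gg T - 2 * gg L) :=
          mul_le_mul_of_nonneg_right h2 h1.le
      _ = bd L * (2 * (R - r) * (6 * r ^ 2 - 2 * R ^ 2) / (r * R ^ 2)) := by
          rw [e]
          field_simp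
      _ ≤ bd L * 1 := by
          refine mul_le_mul_of_nonneg_left ?_ hb.le
          rw [div_le_one (by positivity)]
          exact h3
      _ = bd L := mul_one _

/-- **(J1)** -/
theorem j1 {L T : ℝ} (hL : 0 < L) (h : L ≤ T) :
    6 * gg T * (gg L ^ 2 - aa T * uu L) ≤ td T L := by
  have hT : 0 < T := hL.trans_le h
  have h1 := j1_be hL h
  have hbT := be_pos hT
  have hg := gg_pos hL.le
  have e1 : gg L ^ 2 - aa T * uu L = gg L ^ 2 * (be T - be L) / be T := by
    rw [aa_eq, uu_eq hL]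
    field_simp
  have e2 : td T L = gg L ^ 2 * (2 * gg L * (be T - be L) + bd L) / be T := by
    have e3 : (2 * hl L - (L / (1 + L)) ^ 2) / L ^ 3 = gg L ^ 2 * (2 * gg L * be L - bd L) := by
      unfold gg be bd hl
      have : (1 : ℝ) + L ≠ 0 := by linarith
      field_simp
      ring
    unfold td
    rw [e3, aa_eq]
    field_simp
    ring
  rw [e1, e2]
  have e4 : gg L ^ 2 * (2 * gg L * (be T - be L) + bd L) / be T -
      6 * gg T * (gg L ^ 2 * (be T - be L) / be T) =
      gg L ^ 2 / be T * (bd L - (be T - be L) * (6 * gg T - 2 * gg L)) := by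
    field_simp
    ring
  have h5 : 0 ≤ gg L ^ 2 / be T * (bd L - (be T - be L) * (6 * gg T - 2 * gg L)) :=
    mul_nonneg (by positivity) (by linarith)
  linarith

end Pool.Agent.Helper25.HC
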