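import Pool.Agent.Helper25.HC.Step2

/-!
# (J3)
-/

set_option autoImplicit false

namespace Pool.Agent.Helper25.HC

open Set Pool.Agent.Helper65.HC

/-- Padé type lower bound of the logarithm -/
lemma log_pade_lower {s : ℝ} (hs : 1 ≤ s) :
    3 * (s ^ 2 - 1) / (s ^ 2 + 4 * s + 1) ≤ Real.log s := by
  have key : MonotoneOn (fun s : ℝ => Real.log s - 3 * (s ^ 2 - 1) / (s ^ 2 + 4 * s + 1)) (Ici 1) := by
    have hd : ∀ x : ℝ, 1 ≤ x → HasDerivAt (fun s : ℝ => Real.log s - 3 * (s ^ 2 - 1) / (s ^ 2 + 4 * s + 1))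
        ((x - 1) ^ 4 / (x * (x ^ 2 + 4 * x + 1) ^ 2)) x := by
      intro x hx
      have hx0 : x ≠ 0 := by positivity
      have hx1 : x ^ 2 + 4 * x + 1 ≠ 0 := by positivity
      have e1 : HasDerivAt (fun s : ℝ => 3 * (s ^ 2 - 1)) (6 * x) x := by
        refine (((hasDerivAt_pow 2 x).sub_const 1).const_mul 3).congr_deriv ?_
        simp only [Nat.cast_ofNat]
        ring
      have e2 : HasDerivAt (fun s : ℝ => s ^ 2 + 4 * s + 1) (2 * x + 4) x := by
        refine (((hasDerivAt_pow 2 x).add ((hasDerivAt_id x).const_mul 4)).add_const 1).congr_deriv ?_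
        simp only [Nat.cast_ofNat]
        ring
      refine ((Real.hasDerivAt_log hx0).sub (e1.div e2 hx1)).congr_deriv ?_
      field_simp
      ring
    refine monotoneOn_of_deriv_nonneg (convex_Ici 1) ?_ ?_ ?_
    · exact fun x hx => (hd x hx).continuousAt.continuousWithinAt
    · intro x hx
      rw [interior_Ici] at hx
      exact (hd x (le_of_lt hx)).differentiableAt.differentiableWithinAt
    · intro x hx
      rw [interior_Ici] at hx
      rw [(hd x (le_of_lt hx)).deriv]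
      have : (0 : ℝ) < x := lt_trans one_pos hx
      positivity
  have := key (mem_Ici.2 le_rfl) (mem_Ici.2 hs) hs
  simp only [Real.log_one] at this
  norm_num at this
  linarith

/-- `β` in terms of `s = 1 + L` -/
noncomputable def bs (s : ℝ) : ℝ := s * (s * Real.log s - s + 1) / (s - 1) ^ 2

lemma be_eq_bs {L : ℝ} (h : 0 < L) : be L = bs (1 + L) := by
  have h0 : (1 : ℝ) + L ≠ 0 := by linarith
  have h1 : (1 : ℝ) + L - 1 = L := by ring
  unfold be bs hl
  rw [h1]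
  have h2 : L ≠ 0 := h.ne'
  field_simp
  ring

lemma bs_ge {s : ℝ} (hs : 1 < s) : s * (2 * s + 1) / (s ^ 2 + 4 * s + 1) ≤ bs s := by
  have h1 := log_pade_lower hs.le
  have h0 : 0 < s - 1 := by linarith
  unfold bs
  rw [le_div_iff₀ (by positivity)]
  have h2 : s * (3 * (s ^ 2 - 1) / (s ^ 2 + 4 * s + 1)) ≤ s * Real.log s :=
    mul_le_mul_of_nonneg_left h1 (by linarith)
  have h3 : s * (2 * s + 1) / (s ^ 2 + 4 * s + 1) * (s - 1) ^ 2 =
      s * (s * (3 * (s ^ 2 - 1) / (s ^ 2 + 4 * s + 1)) - s + 1) := by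
    have : s ^ 2 + 4 * s + 1 ≠ 0 := by positivity
    field_simp
    ring
  rw [h3]
  exact mul_le_mul_of_nonneg_left (by linarith) (by linarith)

lemma hasDerivAt_bs {s : ℝ} (hs : 1 < s) :
    HasDerivAt bs ((s ^ 2 - 1 - 2 * s * Real.log s) / (s - 1) ^ 3) s := by
  have h0 : s - 1 ≠ 0 := by linarith
  have hs0 : s ≠ 0 := by linarith
  have e1 : HasDerivAt (fun s : ℝ => s * (s * Real.log s - s + 1)) (2 * s * Real.log s - s + 1) s := by
    refine ((hasDerivAt_id s).mul ((((hasDerivAt_id s).mul (Real.hasDerivAt_log hs0)).sub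
      (hasDerivAt_id s)).add_const 1)).congr_deriv ?_
    simp only [id, Pi.mul_apply, Pi.sub_apply]
    field_simp
    ring
  have e2 : HasDerivAt (fun s : ℝ => (s - 1) ^ 2) (2 * (s - 1)) s := by
    refine (((hasDerivAt_id s).sub_const 1).pow 2).congr_deriv ?_
    simp only [id, Nat.cast_ofNat]
    ring
  refine (e1.div e2 (by positivity)).congr_deriv ?_
  field_simp
  ring

/-- slope `s β' ≥ 0.4` for `s ≥ 1.5` -/
lemma bs_slope_ge {s : ℝ} (hs : 3 / 2 ≤ s) :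
    (2 / 5 : ℝ) / s ≤ (s ^ 2 - 1 - 2 * s * Real.log s) / (s - 1) ^ 3 := by
  have h1 := log_pade (show (1 : ℝ) ≤ s by linarith)
  have h0 : 0 < s - 1 := by linarith
  have hs0 : 0 < s := by linarith
  rw [div_le_div_iff₀ hs0 (by positivity)]
  rw [le_div_iff₀ (by positivity)] at h1
  -- `log s * (6 s (s+1)) ≤ (s-1)(s²+10s+1)`
  have h2 : 2 * s ^ 2 * Real.log s * (3 * (s + 1)) ≤ s * ((s - 1) * (s ^ 2 + 10 * s + 1)) := by
    nlinarith
  have h3 : s * ((s - 1) * (s ^ 2 + 10 * s + 1)) ≤ (s * (s ^ 2 - 1) - 2 / 5 * (s - 1) ^ 3) * (3 * (s + 1)) := by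
    have e : (s * (s ^ 2 - 1) - 2 / 5 * (s - 1) ^ 3) * (3 * (s + 1)) - s * ((s - 1) * (s ^ 2 + 10 * s + 1)) =
        4 / 5 * (s - 1) ^ 3 * (s - 3 / 2) := by ring
    have h4 : 0 ≤ 4 / 5 * (s - 1) ^ 3 * (s - 3 / 2) := mul_nonneg (by positivity) (by linarith)
    linarith
  have h5 : 2 * s ^ 2 * Real.log s ≤ s * (s ^ 2 - 1) - 2 / 5 * (s - 1) ^ 3 :=
    le_of_mul_le_mul_right (h2.trans h3) (by positivity)
  nlinarith

/-- slope `s β' ≤ 1` -/
lemma bs_slope_le {s : ℝ} (hs : 1 < s) :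
    (s ^ 2 - 1 - 2 * s * Real.log s) / (s - 1) ^ 3 ≤ 1 / s := by
  have h0 : 0 < s - 1 := by linarith
  have hs0 : 0 < s := by linarith
  have hlog : (3 * s - 1) * (s - 1) / (2 * s ^ 2) ≤ Real.log s := by
    have key : MonotoneOn (fun s : ℝ => Real.log s - (3 * s - 1) * (s - 1) / (2 * s ^ 2)) (Ici 1) := by
      have hd : ∀ x : ℝ, 1 ≤ x → HasDerivAt (fun s : ℝ => Real.log s - (3 * s - 1) * (s - 1) / (2 * s ^ 2))
          ((x - 1) ^ 2 / x ^ 3) x := by
        intro x hx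
        have hx0 : x ≠ 0 := by positivity
        have e1 : HasDerivAt (fun s : ℝ => (3 * s - 1) * (s - 1)) (6 * x - 4) x := by
          refine ((((hasDerivAt_id x).const_mul 3).sub_const 1).mul ((hasDerivAt_id x).sub_const 1)).congr_deriv ?_
          simp only [id]
          ring
        have e2 : HasDerivAt (fun s : ℝ => 2 * s ^ 2) (4 * x) x := by
          refine ((hasDerivAt_pow 2 x).const_mul 2).congr_deriv ?_
          simp only [Nat.cast_ofNat]
          ring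
        refine ((Real.hasDerivAt_log hx0).sub (e1.div e2 (by positivity))).congr_deriv ?_
        field_simp
        ring
      refine monotoneOn_of_deriv_nonneg (convex_Ici 1) ?_ ?_ ?_
      · exact fun x hx => (hd x hx).continuousAt.continuousWithinAt
      · intro x hx
        rw [interior_Ici] at hx
        exact (hd x (le_of_lt hx)).differentiableAt.differentiableWithinAt
      · intro x hx
        rw [interior_Ici] at hx
        rw [(hd x (le_of_lt hx)).deriv]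
        have : (0 : ℝ) < x := lt_trans one_pos hx
        positivity
    have := key (mem_Ici.2 le_rfl) (mem_Ici.2 hs.le) hs.le
    simp only [Real.log_one] at this
    norm_num at this
    linarith
  rw [div_le_iff₀ (by positivity)] at hlog
  rw [div_le_div_iff₀ (by positivity) hs0]
  nlinarith

/-- increments of `β` above: `β_T - β_L ≤ log (S/s)` -/
lemma bs_incr_le {s S : ℝ} (hs : 1 < s) (h : s ≤ S) : bs S - bs s ≤ Real.log (S / s) := by
  have key : MonotoneOn (fun x => Real.log x - bs x) (Ici s) := by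
    have hd : ∀ x : ℝ, 1 < x → HasDerivAt (fun x => Real.log x - bs x)
        (1 / x - (x ^ 2 - 1 - 2 * x * Real.log x) / (x - 1) ^ 3) x := by
      intro x hx
      refine ((Real.hasDerivAt_log (by linarith)).sub (hasDerivAt_bs hx)).congr_deriv ?_
      rw [one_div]
    refine monotoneOn_of_deriv_nonneg (convex_Ici s) ?_ ?_ ?_
    · exact fun x hx => (hd x (hs.trans_le hx)).continuousAt.continuousWithinAt
    · intro x hx
      rw [interior_Ici] at hx
      exact (hd x (hs.trans hx)).differentiableAt.differentiableWithinAt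
    · intro x hx
      rw [interior_Ici] at hx
      rw [(hd x (hs.trans hx)).deriv]
      linarith [bs_slope_le (hs.trans hx)]
  have := key (mem_Ici.2 le_rfl) (mem_Ici.2 h) h
  simp only at this
  rw [Real.log_div (by linarith) (by linarith)]
  linarith

/-- `β(s) ≥ β(4) + 0.4 log (s/4)` for `s ≥ 4` -/
lemma bs_large {s : ℝ} (hs : 4 ≤ s) : bs 4 + 2 / 5 * (Real.log s - Real.log 4) ≤ bs s := by
  have key : MonotoneOn (fun x => bs x - 2 / 5 * Real.log x) (Ici 4) := by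
    have hd : ∀ x : ℝ, 1 < x → HasDerivAt (fun x => bs x - 2 / 5 * Real.log x)
        ((x ^ 2 - 1 - 2 * x * Real.log x) / (x - 1) ^ 3 - (2 / 5) / x) x := by
      intro x hx
      refine ((hasDerivAt_bs hx).sub ((Real.hasDerivAt_log (by linarith)).const_mul (2 / 5))).congr_deriv ?_
      rw [div_eq_mul_inv (2 / 5 : ℝ) x]
    refine monotoneOn_of_deriv_nonneg (convex_Ici 4) ?_ ?_ ?_
    · intro x hx
      have hx' : (4 : ℝ) ≤ x := hx
      exact (hd x (by linarith)).continuousAt.continuousWithinAt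
    · intro x hx
      rw [interior_Ici] at hx
      have hx' : (4 : ℝ) < x := hx
      exact (hd x (by linarith)).differentiableAt.differentiableWithinAt
    · intro x hx
      rw [interior_Ici] at hx
      have hx' : (4 : ℝ) < x := hx
      rw [(hd x (by linarith)).deriv]
      linarith [bs_slope_ge (show (3 / 2 : ℝ) ≤ x by linarith)]
  have := key (mem_Ici.2 le_rfl) (mem_Ici.2 hs) hs
  simp only at this
  linarith

/-- the polynomial inequality for `q = √s ≤ 2` -/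
lemma quart_nonneg {a r0 r1 r2 r3 r4 : ℝ} (ha : 0 ≤ a) (h0 : 0 ≤ r0) (h1 : 0 ≤ r1) (h3 : 0 ≤ r3)
    (h4 : 0 ≤ r4) (h02 : 0 ≤ r0 + r2 / 2) (h42 : 0 ≤ r4 + r2 / 2) :
    0 ≤ r0 + r1 * a + r2 * a ^ 2 + r3 * a ^ 3 + r4 * a ^ 4 := by
  have ha2 : 0 ≤ a ^ 2 := by positivity
  have ha3 : 0 ≤ a ^ 3 := by positivity
  have ha4 : 0 ≤ a ^ 4 := by positivity
  have h7 : 0 ≤ r1 * a := mul_nonneg h1 ha
  have h8 : 0 ≤ r3 * a ^ 3 := mul_nonneg h3 ha3
  rcases le_total 0 r2 with h | h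
  · have h9 : 0 ≤ r4 * a ^ 4 := mul_nonneg h4 ha4
    have h10 : 0 ≤ r2 * a ^ 2 := mul_nonneg h ha2
    linarith
  · have h5 : a ^ 2 ≤ (1 + a ^ 4) / 2 := by
      have := sq_nonneg (a ^ 2 - 1)
      have e : (a ^ 2 - 1) ^ 2 = a ^ 4 - 2 * a ^ 2 + 1 := by ring
      linarith
    have h6 : r2 * ((1 + a ^ 4) / 2) ≤ r2 * a ^ 2 := mul_le_mul_of_nonpos_left h5 h
    have h9 : 0 ≤ (r4 + r2 / 2) * a ^ 4 := mul_nonneg h42 ha4
    have e : (r4 + r2 / 2) * a ^ 4 = r4 * a ^ 4 + (r2 * ((1 + a ^ 4) / 2) - r2 / 2) := by ring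
    linarith

lemma poly_ineq {a b : ℝ} (ha : 0 ≤ a) (hb : 0 ≤ b) (hb1 : b ≤ 1) :
    ((1 + b) ^ 2 - 1) * (((1 + a) ^ 2 - 1) ^ 2 * (1 + b) + ((1 + a) ^ 2 - 1) * ((1 + b) ^ 2 - 1) * (1 + a)) *
      ((1 + b) ^ 4 + 4 * (1 + b) ^ 2 + 1) ≤
    19 / 20 * (1 + b) ^ 3 * (2 * (1 + b) ^ 2 + 1) * ((1 + a) ^ 2 * (1 + b) ^ 2 - 1) * (1 + a) ^ 2 := by
  have p1 : 0 ≤ 1 - b := by linarith
  have p2 : 0 ≤ b * (1 - b) := mul_nonneg hb p1
  have p3 : 0 ≤ b ^ 2 * (1 - b) := mul_nonneg (by positivity) p1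
  have p4 : 0 ≤ b ^ 3 * (1 - b) := mul_nonneg (by positivity) p1
  have p5 : 0 ≤ b ^ 4 * (1 - b) := mul_nonneg (by positivity) p1
  have p6 : 0 ≤ b ^ 5 * (1 - b) := mul_nonneg (by positivity) p1
  have p7 : 0 ≤ b ^ 6 * (1 - b) := mul_nonneg (by positivity) p1
  have p8 : 0 ≤ b ^ 7 * (1 - b) := mul_nonneg (by positivity) p1
  have q8 : 0 ≤ b ^ 8 := by positivity
  have h0 : 0 ≤ 5.7 * b + 27.55 * b ^ 2 + 56.05 * b ^ 3 + 61.75 * b ^ 4 + 38.95 * b ^ 5 + 13.3 * b ^ 6 + 1.9 * b ^ 7 := by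
    positivity
  have h1 : 0 ≤ 5.7 + 47.5 * b + 105.9 * b ^ 2 + 120.1 * b ^ 3 + 78 * b ^ 4 + 23.6 * b ^ 5 - 6.8 * b ^ 6 - 8.4 * b ^ 7 - 2 * b ^ 8 := by
    linarith
  have h3 : 0 ≤ 11.4 + 24.2 * b + 5.6 * b ^ 2 - 16 * b ^ 3 - 9 * b ^ 4 - 0.6 * b ^ 5 - 4.8 * b ^ 6 - 4.4 * b ^ 7 - b ^ 8 := by
    linarith
  have h4 : 0 ≤ 2.85 + 6.05 * b + 7.4 * b ^ 2 + 14 * b ^ 3 + 21.25 * b ^ 4 + 16.85 * b ^ 5 + 6.3 * b ^ 6 + 0.9 * b ^ 7 := by
    positivity
  have h02 : 0 ≤ (5.7 * b + 27.55 * b ^ 2 + 56.05 * b ^ 3 + 61.75 * b ^ 4 + 38.95 * b ^ 5 + 13.3 * b ^ 6 + 1.9 * b ^ 7) +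
      (14.25 + 47.95 * b + 34.55 * b ^ 2 - 27.95 * b ^ 3 - 64 * b ^ 4 - 56.8 * b ^ 5 - 38.2 * b ^ 6 - 16.6 * b ^ 7 - 3 * b ^ 8) / 2 := by
    linarith
  have h42 : 0 ≤ (2.85 + 6.05 * b + 7.4 * b ^ 2 + 14 * b ^ 3 + 21.25 * b ^ 4 + 16.85 * b ^ 5 + 6.3 * b ^ 6 + 0.9 * b ^ 7) +
      (14.25 + 47.95 * b + 34.55 * b ^ 2 - 27.95 * b ^ 3 - 64 * b ^ 4 - 56.8 * b ^ 5 - 38.2 * b ^ 6 - 16.6 * b ^ 7 - 3 * b ^ 8) / 2 := by
    linarith
  have key := quart_nonneg ha h0 h1 h3 h4 h02 h42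
  have e : 19 / 20 * (1 + b) ^ 3 * (2 * (1 + b) ^ 2 + 1) * ((1 + a) ^ 2 * (1 + b) ^ 2 - 1) * (1 + a) ^ 2 -
      ((1 + b) ^ 2 - 1) * (((1 + a) ^ 2 - 1) ^ 2 * (1 + b) + ((1 + a) ^ 2 - 1) * ((1 + b) ^ 2 - 1) * (1 + a)) *
      ((1 + b) ^ 4 + 4 * (1 + b) ^ 2 + 1) =
      (5.7 * b + 27.55 * b ^ 2 + 56.05 * b ^ 3 + 61.75 * b ^ 4 + 38.95 * b ^ 5 + 13.3 * b ^ 6 + 1.9 * b ^ 7) +
      (5.7 + 47.5 * b + 105.9 * b ^ 2 + 120.1 * b ^ 3 + 78 * b ^ 4 + 23.6 * b ^ 5 - 6.8 * b ^ 6 - 8.4 * b ^ 7 - 2 * b ^ 8) * a +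
      (14.25 + 47.95 * b + 34.55 * b ^ 2 - 27.95 * b ^ 3 - 64 * b ^ 4 - 56.8 * b ^ 5 - 38.2 * b ^ 6 - 16.6 * b ^ 7 - 3 * b ^ 8) * a ^ 2 +
      (11.4 + 24.2 * b + 5.6 * b ^ 2 - 16 * b ^ 3 - 9 * b ^ 4 - 0.6 * b ^ 5 - 4.8 * b ^ 6 - 4.4 * b ^ 7 - b ^ 8) * a ^ 3 +
      (2.85 + 6.05 * b + 7.4 * b ^ 2 + 14 * b ^ 3 + 21.25 * b ^ 4 + 16.85 * b ^ 5 + 6.3 * b ^ 6 + 0.9 * b ^ 7) * a ^ 4 := by
    ring
  linarith

lemma log_le_sub_inv {x : ℝ} (hx : 1 ≤ x) : 2 * Real.log x ≤ x - x⁻¹ := by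
  rcases hx.eq_or_lt with h | h
  · rw [← h]
    simp
  · exact (two_log_lt h).le

/-- the final inequality for `s ≤ 4` -/
lemma final_small {s S : ℝ} (hs : 1 < s) (hs4 : s ≤ 4) (h : s ≤ S) :
    (s - 1) * Real.log (S / s) * Real.log S ≤ 19 / 20 * bs s * (S - 1) := by
  have hs0 : 0 < s := by linarith
  have hS0 : 0 < S := by linarith
  set p := √(S / s) with hp
  set q := √s with hq
  have hp2 : p ^ 2 = S / s := Real.sq_sqrt (by positivity)
  have hq2 : q ^ 2 = s := Real.sq_sqrt hs0.le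
  have hp1 : 1 ≤ p := by
    rw [hp, Real.one_le_sqrt, le_div_iff₀ hs0]
    linarith
  have hq1 : 1 ≤ q := by
    rw [hq, Real.one_le_sqrt]
    exact hs.le
  have hq2' : q ≤ 2 := by
    rw [hq, Real.sqrt_le_left (by norm_num)]
    linarith
  have hSpq : S = p ^ 2 * q ^ 2 := by
    rw [hp2, hq2]
    field_simp
  have hlr : Real.log (S / s) ≤ p - p⁻¹ := by
    rw [← hp2, Real.log_pow]
    exact_mod_cast log_le_sub_inv hp1
  have hls : Real.log s ≤ q - q⁻¹ := by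
    rw [← hq2, Real.log_pow]
    exact_mod_cast log_le_sub_inv hq1
  have hlS : Real.log S = Real.log (S / s) + Real.log s := by
    rw [Real.log_div hS0.ne' hs0.ne']
    ring
  have hlr0 : 0 ≤ Real.log (S / s) := Real.log_nonneg (by rw [le_div_iff₀ hs0]; linarith)
  have hls0 : 0 ≤ Real.log s := Real.log_nonneg hs.le
  have hp0 : 0 < p := by linarith
  have hq0 : 0 < q := by linarith
  have h1 : Real.log (S / s) * Real.log S ≤ (p - p⁻¹) * ((p - p⁻¹) + (q - q⁻¹)) := by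
    rw [hlS]
    exact mul_le_mul hlr (by linarith) (by linarith) (by linarith)
  have h2 := poly_ineq (a := p - 1) (b := q - 1) (by linarith) (by linarith) (by linarith)
  have e1 : (1 : ℝ) + (p - 1) = p := by ring
  have e2 : (1 : ℝ) + (q - 1) = q := by ring
  rw [e1, e2] at h2
  have h3 := bs_ge hs
  have h4 : (s - 1) * (Real.log (S / s) * Real.log S) ≤
      (q ^ 2 - 1) * ((p - p⁻¹) * ((p - p⁻¹) + (q - q⁻¹))) := by
    rw [hq2]
    exact mul_le_mul_of_nonneg_left h1 (by linarith)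
  have h5 : (q ^ 2 - 1) * ((p - p⁻¹) * ((p - p⁻¹) + (q - q⁻¹))) =
      ((q ^ 2 - 1) * ((p ^ 2 - 1) ^ 2 * q + (p ^ 2 - 1) * (q ^ 2 - 1) * p) * (q ^ 4 + 4 * q ^ 2 + 1)) /
        (p ^ 2 * q * (q ^ 4 + 4 * q ^ 2 + 1)) := by
    have : q ^ 4 + 4 * q ^ 2 + 1 ≠ 0 := by positivity
    field_simp
  have h6 : ((q ^ 2 - 1) * ((p ^ 2 - 1) ^ 2 * q + (p ^ 2 - 1) * (q ^ 2 - 1) * p) * (q ^ 4 + 4 * q ^ 2 + 1)) /
        (p ^ 2 * q * (q ^ 4 + 4 * q ^ 2 + 1)) ≤
      (19 / 20 * q ^ 3 * (2 * q ^ 2 + 1) * (p ^ 2 * q ^ 2 - 1) * p ^ 2) /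
        (p ^ 2 * q * (q ^ 4 + 4 * q ^ 2 + 1)) :=
    div_le_div_of_nonneg_right h2 (by positivity)
  have h7 : (19 / 20 * q ^ 3 * (2 * q ^ 2 + 1) * (p ^ 2 * q ^ 2 - 1) * p ^ 2) /
        (p ^ 2 * q * (q ^ 4 + 4 * q ^ 2 + 1)) =
      19 / 20 * (s * (2 * s + 1) / (s ^ 2 + 4 * s + 1)) * (S - 1) := by
    rw [hSpq, ← hq2]
    have : q ^ 4 + 4 * q ^ 2 + 1 ≠ 0 := by positivity
    have : (q ^ 2) ^ 2 + 4 * q ^ 2 + 1 ≠ 0 := by positivity
    field_simp
  have h8 : 19 / 20 * (s * (2 * s + 1) / (s ^ 2 + 4 * s + 1)) * (S - 1) ≤ 19 / 20 * bs s * (S - 1) :=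
    mul_le_mul_of_nonneg_right (by linarith) (by linarith)
  calc (s - 1) * Real.log (S / s) * Real.log S = (s - 1) * (Real.log (S / s) * Real.log S) := by ring
    _ ≤ _ := h4
    _ = _ := h5
    _ ≤ _ := h6
    _ = _ := h7
    _ ≤ _ := h8

lemma bs_four : bs 4 = 4 * (4 * Real.log 4 - 3) / 9 := by
  unfold bs
  ring

lemma log_four_eq : Real.log 4 = 2 * Real.log 2 := by
  rw [show (4 : ℝ) = 2 ^ 2 by norm_num, Real.log_pow]
  norm_num

/-- the final inequality for `s ≥ 4` -/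
lemma final_large {s S : ℝ} (hs4 : 4 ≤ s) (h : s ≤ S) :
    (s - 1) * Real.log (S / s) * Real.log S ≤ 19 / 20 * bs s * (S - 1) := by
  have hs0 : 0 < s := by linarith
  have hS0 : 0 < S := by linarith
  have hr1 : 1 ≤ S / s := by rw [le_div_iff₀ hs0]; linarith
  have hr0 : 0 < S / s := by linarith
  set ρ := Real.log (S / s) with hρ
  have hρ0 : 0 ≤ ρ := Real.log_nonneg hr1
  have hexp : Real.exp ρ = S / s := Real.exp_log hr0
  have hlS : Real.log S = ρ + Real.log s := by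
    rw [hρ, Real.log_div hS0.ne' hs0.ne']
    ring
  have he := Real.exp_one_gt_d9
  have hepos : 0 < Real.exp 1 := Real.exp_pos 1
  -- `ρ ≤ e^ρ / e`
  have h1 : ρ * Real.exp 1 ≤ S / s := by
    have h2 := Real.add_one_le_exp (ρ - 1)
    have h3 : Real.exp ρ = Real.exp (ρ - 1) * Real.exp 1 := by rw [← Real.exp_add]; ring_nf
    rw [← hexp, h3]
    exact mul_le_mul_of_nonneg_right (by linarith) hepos.le
  -- `ρ² ≤ 4 e^ρ / e²`
  have h2 : ρ ^ 2 * Real.exp 1 ^ 2 ≤ 4 * (S / s) := by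
    have h3 := Real.add_one_le_exp (ρ / 2 - 1)
    have h4 : ρ / 2 ≤ Real.exp (ρ / 2 - 1) := by linarith
    have h5 : Real.exp ρ = (Real.exp (ρ / 2 - 1)) ^ 2 * Real.exp 1 ^ 2 := by
      rw [← Real.exp_nat_mul, ← Real.exp_nat_mul, ← Real.exp_add]
      congr 1
      push_cast
      ring
    have h6 : (ρ / 2) ^ 2 ≤ (Real.exp (ρ / 2 - 1)) ^ 2 := pow_le_pow_left₀ (by linarith) h4 2
    have h7 : (ρ / 2) ^ 2 * Real.exp 1 ^ 2 ≤ (Real.exp (ρ / 2 - 1)) ^ 2 * Real.exp 1 ^ 2 :=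
      mul_le_mul_of_nonneg_right h6 (by positivity)
    rw [← hexp, h5]
    nlinarith
  -- numbers
  have hb := bs_large hs4
  rw [bs_four] at hb
  have hl2 := Real.log_two_gt_d9
  have hl2' := Real.log_two_lt_d9
  have hl4 := log_four_eq
  have hls : Real.log 4 ≤ Real.log s := Real.log_le_log (by norm_num) hs4
  have h3 : ρ ≤ 0.3679 * (S / s) := by
    have : ρ * 2.7182 ≤ ρ * Real.exp 1 := mul_le_mul_of_nonneg_left (by linarith) hρ0
    nlinarith
  have h4 : ρ ^ 2 ≤ 0.5414 * (S / s) := by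
    have h5 : (2.7182 : ℝ) ^ 2 ≤ Real.exp 1 ^ 2 := pow_le_pow_left₀ (by norm_num) (by linarith) 2
    have : ρ ^ 2 * 2.7182 ^ 2 ≤ ρ ^ 2 * Real.exp 1 ^ 2 := mul_le_mul_of_nonneg_left h5 (by positivity)
    nlinarith
  have hls0 : 0 ≤ Real.log s := by linarith
  have h5 : ρ * (ρ + Real.log s) ≤ 19 / 20 * bs s * (S / s) := by
    have h6 : ρ * Real.log s ≤ 0.3679 * (S / s) * Real.log s := mul_le_mul_of_nonneg_right h3 hls0
    have h7 : 0.5414 + 0.3679 * Real.log s ≤ 19 / 20 * bs s := by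
      rw [hl4] at hb hls
      linarith
    have h8 : (0.5414 + 0.3679 * Real.log s) * (S / s) ≤ 19 / 20 * bs s * (S / s) :=
      mul_le_mul_of_nonneg_right h7 hr0.le
    have e : ρ * (ρ + Real.log s) = ρ ^ 2 + ρ * Real.log s := by ring
    rw [e]
    linarith
  have h6 : (S / s) * (s - 1) ≤ S - 1 := by
    have e : (S / s) * (s - 1) = S - S / s := by field_simp
    rw [e]
    linarith
  have hbs0 : 0 ≤ 19 / 20 * bs s := by
    rw [hl4] at hb hls
    linarith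
  calc (s - 1) * ρ * Real.log S = (s - 1) * (ρ * (ρ + Real.log s)) := by rw [hlS]; ring
    _ ≤ (s - 1) * (19 / 20 * bs s * (S / s)) := mul_le_mul_of_nonneg_left h5 (by linarith)
    _ = 19 / 20 * bs s * ((S / s) * (s - 1)) := by ring
    _ ≤ 19 / 20 * bs s * (S - 1) := mul_le_mul_of_nonneg_left h6 hbs0

lemma final_ineq {s S : ℝ} (hs : 1 < s) (h : s ≤ S) :
    (s - 1) * Real.log (S / s) * Real.log S ≤ 19 / 20 * bs s * (S - 1) := by
  rcases le_total s 4 with h4 | h4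
  · exact final_small hs h4 h
  · exact final_large h4 h

/-- `ss ≤ (1 + L) t` for `L ≤ T` -/
lemma ss_le_tf {T L : ℝ} (hL : 0 < L) (h : L ≤ T) : ss T L ≤ (1 + L) * tf T L := by
  have hT : 0 < T := hL.trans_le h
  have key : AntitoneOn (fun x => (1 + x) * tf T x - (sM (aa T) x - sM (aa T) T)) (Set.Icc L T) := by
    have hd : ∀ x : ℝ, 0 < x → HasDerivAt
        (fun x => (1 + x) * tf T x - (sM (aa T) x - sM (aa T) T))
        (-((1 + x) * td T x - 2 * tf T x)) x := by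
      intro x hx
      have h0 : HasDerivAt (tf T) (-(td T x)) x := hasDerivAt_t T hx
      have h1 : HasDerivAt (fun x : ℝ => 1 + x) 1 x := (hasDerivAt_id x).const_add 1
      refine ((h1.mul h0).sub ((hasDerivAt_sM (aa T) hx).sub_const _)).congr_deriv ?_
      unfold tf
      ring
    refine antitoneOn_of_deriv_nonpos (convex_Icc L T) ?_ ?_ ?_
    · exact fun x hx => (hd x (hL.trans_le hx.1)).continuousAt.continuousWithinAt
    · intro x hx
      rw [interior_Icc] at hx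
      exact (hd x (hL.trans hx.1)).differentiableAt.differentiableWithinAt
    · intro x hx
      rw [interior_Icc] at hx
      have hx0 : 0 < x := hL.trans hx.1
      rw [(hd x hx0).deriv]
      have hbT := be_pos hT
      have e1 : tf T x = gg x ^ 2 * (be T - be x) / be T := by
        unfold tf
        rw [aa_eq, uu_eq hx0]
        field_simp
      have e2 : td T x = gg x ^ 2 * (2 * gg x * (be T - be x) + bd x) / be T := by
        have e3 : (2 * hl x - (x / (1 + x)) ^ 2) / x ^ 3 = gg x ^ 2 * (2 * gg x * be x - bd x) := by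
          unfold gg be bd hl
          have : (1 : ℝ) + x ≠ 0 := by linarith
          field_simp
          ring
        unfold td
        rw [e3, aa_eq]
        field_simp
        ring
      have e4 : (1 + x) * td T x - 2 * tf T x = gg x * bd x / be T := by
        rw [e1, e2]
        unfold gg
        have : (1 : ℝ) + x ≠ 0 := by linarith
        field_simp
        ring
      rw [e4]
      have h1 := gg_pos hx0.le
      have h2 := bd_pos hx0
      have : 0 ≤ gg x * bd x / be T := by positivity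
      linarith
  have h1 := key ⟨le_rfl, h⟩ ⟨h, le_rfl⟩ h
  simp only [sub_self] at h1
  have h2 : tf T T = 0 := by
    unfold tf
    rw [aa_mul_uu hT, sub_self]
  rw [h2] at h1
  unfold ss
  rw [sg, min_eq_left h]
  linarith

/-- `ph T (s - t) ≤ 0.95 a u` -/
lemma ph_mul_le {T L : ℝ} (hL : 0 < L) (h : L ≤ T) :
    ph T * (ss T L - tf T L) ≤ 19 / 20 * (aa T * uu L) := by
  have hT : 0 < T := hL.trans_le h
  have hbT := be_pos hT
  have hbL := be_pos hL
  have hg := gg_pos hL.le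
  have hφ := ph_pos hT.le
  have h1 := ss_le_tf hL h
  have e1 : tf T L = gg L ^ 2 * (be T - be L) / be T := by
    unfold tf
    rw [aa_eq, uu_eq hL]
    field_simp
  have h2 : be T - be L ≤ Real.log ((1 + T) / (1 + L)) := by
    rw [be_eq_bs hT, be_eq_bs hL]
    exact bs_incr_le (by linarith) (by linarith)
  have h3 := final_ineq (s := 1 + L) (S := 1 + T) (by linarith) (by linarith)
  have e2 : (1 : ℝ) + L - 1 = L := by ring
  have e3 : (1 : ℝ) + T - 1 = T := by ring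
  rw [e2, e3, ← be_eq_bs hL] at h3
  have h4 : ph T * (L * (be T - be L)) ≤ 19 / 20 * be L := by
    rw [ph_of_pos hT, div_mul_eq_mul_div, div_le_iff₀ hT]
    have hlog : 0 ≤ Real.log (1 + T) := Real.log_nonneg (by linarith)
    have h5 : Real.log (1 + T) * (L * (be T - be L)) ≤
        Real.log (1 + T) * (L * Real.log ((1 + T) / (1 + L))) :=
      mul_le_mul_of_nonneg_left (mul_le_mul_of_nonneg_left h2 hL.le) hlog
    linarith
  have h6 : ph T * (ss T L - tf T L) ≤ ph T * (L * tf T L) :=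
    mul_le_mul_of_nonneg_left (by linarith) hφ.le
  have e4 : ph T * (L * tf T L) = gg L ^ 2 / be T * (ph T * (L * (be T - be L))) := by
    rw [e1]
    ring
  have e5 : 19 / 20 * (aa T * uu L) = gg L ^ 2 / be T * (19 / 20 * be L) := by
    rw [aa_eq, uu_eq hL]
    ring
  rw [e5]
  rw [e4] at h6
  exact h6.trans (mul_le_mul_of_nonneg_left h4 (by positivity))

lemma CT_ge {T z : ℝ} (hT : 0 < T) (hz : 6 * gg T ≤ z) : 19 / 20 * aa T * z ≤ CT T z := by
  have hg := gg_pos hT.le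
  have ha := aa_pos hT
  have hz0 : 0 < z := by linarith
  have h1 : Real.log (6 * gg T / z) ≤ 6 * gg T / z - 1 :=
    Real.log_le_sub_one_of_pos (by positivity)
  have h2 : Real.log (z / gg T) = Real.log 6 - Real.log (6 * gg T / z) := by
    rw [← Real.log_div (by norm_num) (by positivity)]
    congr 1
    field_simp
  have h3 : (1.7834 : ℝ) ≤ Real.log 6 := by
    have h4 := Real.le_log_one_add_of_nonneg (show (0 : ℝ) ≤ 1 / 2 by norm_num)
    have h5 : Real.log 6 = 2 * Real.log 2 + Real.log (1 + 1 / 2) := by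
      rw [← log_four_eq, ← Real.log_mul (by norm_num) (by norm_num)]
      norm_num
    have h6 := Real.log_two_gt_d9
    norm_num at h4
    norm_num at h5
    linarith
  have h4 : z * (6 * gg T / z) = 6 * gg T := by field_simp
  have h5 : z * (Real.log 6 - (6 * gg T / z - 1)) ≤ z * Real.log (z / gg T) := by
    rw [h2]
    exact mul_le_mul_of_nonneg_left (by linarith) hz0.le
  have h6 : 19 / 20 * z ≤ z * Real.log (z / gg T) - z + gg T := by
    have h7 : z * 1.7834 ≤ z * Real.log 6 := mul_le_mul_of_nonneg_left h3 hz0.le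
    have e : z * (Real.log 6 - (6 * gg T / z - 1)) = z * Real.log 6 - z * (6 * gg T / z) + z := by ring
    rw [e, h4] at h5
    linarith
  have h7 := mul_le_mul_of_nonneg_left h6 ha.le
  have h8 : 0 ≤ gg T * (z - gg T) := mul_nonneg hg.le (by linarith)
  unfold CT
  linarith

/-- **(J3)** -/
theorem j3 {T L z : ℝ} (hL : 0 < L) (h : L < T) (hz : 6 * gg T < z) (hz1 : z ≤ 1) :
    ph T * (z * ss T L - tt T L) ≤ CT T z * uu L := by
  have hT : 0 < T := hL.trans h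
  have hg := gg_pos hT.le
  have ha := aa_pos hT
  have hu := uu_pos hL
  have hz0 : 0 < z := by linarith
  have hφ := ph_pos hT.le
  have h1 := ph_mul_le hL h.le
  have h2 := CT_ge hT hz.le
  have h3 := tf_nonneg hL h.le
  rw [tt_eq_tf hT, min_eq_left h.le]
  have h4 : z * ss T L - tf T L ≤ z * (ss T L - tf T L) := by nlinarith
  calc ph T * (z * ss T L - tf T L) ≤ ph T * (z * (ss T L - tf T L)) :=
        mul_le_mul_of_nonneg_left h4 hφ.le
    _ = z * (ph T * (ss T L - tf T L)) := by ring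
    _ ≤ z * (19 / 20 * (aa T * uu L)) := mul_le_mul_of_nonneg_left h1 hz0.le
    _ = 19 / 20 * aa T * z * uu L := by ring
    _ ≤ CT T z * uu L := mul_le_mul_of_nonneg_right h2 hu.le

universe u

open Finset Classical in
/-- **Step 2** without hypothesis -/
theorem hub_small' {V : Type u} [Fintype V] {G : SimpleGraph V} {T : ℝ} {w y : V → ℝ} (hT : 0 < T)
    (hc : Crit G T w y) {u : V} (hu : 0 < w u) (hhub : T ≤ Lw G w u)
    (he : ∑ x ∈ (cn G u).filter (fun x => Lw G w x < T), w x * uu (Lw G w x) < ph T) :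
    y u < gg T :=
  hub_small hT hc (fun _ _ h1 h2 h3 h4 => j3 h1 h2 h3 h4) hu hhub he

end Pool.Agent.Helper25.HC
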