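import Pool.Agent.Helper25.HC.J1

/-!
# The potential `Λ` (first integral of `Y' = (1+L)² (t' + Y t)`) and the sign of `B_vx`
-/

set_option autoImplicit false

namespace Pool.Agent.Helper25.HC

open Set Pool.Agent.Helper65.HC MeasureTheory intervalIntegral

/-- `t(L) = g² - a(T) u`, not flattened -/
noncomputable def tf (T L : ℝ) : ℝ := gg L ^ 2 - aa T * uu L

lemma tf_nonneg {T L : ℝ} (hL : 0 < L) (h : L ≤ T) : 0 ≤ tf T L := slope_nonneg hL h

lemma td_ge {T L y : ℝ} (hL : 0 < L) (h : L ≤ T) (hy : y ≤ 6 * gg T) : y * tf T L ≤ td T L :=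
  (mul_le_mul_of_nonneg_right hy (tf_nonneg hL h)).trans (j1 hL h)

lemma tt_eq_tf {T L : ℝ} (hT : 0 < T) : tt T L = tf T (min L T) := by
  rcases le_total L T with h | h
  · rw [min_eq_left h, tt_eq_of_le hT h]
    rfl
  · rw [min_eq_right h, tt, if_neg (not_lt.2 h)]
    unfold tf
    rw [aa_mul_uu hT, sub_self]

lemma tf_cont (T : ℝ) {x : ℝ} (hx : 0 < x) : ContinuousAt (tf T) x :=
  (hasDerivAt_t T hx).continuousAt

lemma td_cont (T : ℝ) {x : ℝ} (hx : 0 < x) : ContinuousAt (td T) x := by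
  unfold td
  have h1 := (hasDerivAt_gg hx.le).continuousAt
  have h2 := (hasDerivAt_hl hx.le).continuousAt
  have h3 : ContinuousAt (fun L : ℝ => L / (1 + L)) x :=
    continuousAt_id.div (by fun_prop) (by linarith)
  exact ((h1.pow 3).const_mul 2).sub ((((h2.const_mul 2).sub (h3.pow 2)).div (by fun_prop)
    (by positivity)).const_mul _)

/-- `(1+L)² t` -/
noncomputable def Pf (T L : ℝ) : ℝ := (1 + L) ^ 2 * tf T L

/-- the integrating factor -/
noncomputable def Ef (T L : ℝ) : ℝ := Real.exp (∫ l in L..T, Pf T l)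

/-- `(1+L)² E |t'|` -/
noncomputable def Qf (T L : ℝ) : ℝ := Ef T L * ((1 + L) ^ 2 * td T L)

noncomputable def Jf (T L : ℝ) : ℝ := ∫ l in L..T, Qf T l

/-- derivative of `x ↦ ∫_x^T f` for a function which is continuous on `(0, ∞)` -/
lemma hasDerivAt_left {f : ℝ → ℝ} (hf : ∀ x, 0 < x → ContinuousAt f x) {T x : ℝ} (hT : 0 < T)
    (hx : 0 < x) : HasDerivAt (fun y => ∫ l in y..T, f l) (-(f x)) x := by
  have hc : ContinuousOn f (Ioi 0) := fun y hy => (hf y hy).continuousWithinAt
  refine integral_hasDerivAt_left ?_ ?_ (hf x hx)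
  · refine ContinuousOn.intervalIntegrable (hc.mono ?_)
    intro y hy
    rw [mem_uIcc] at hy
    rw [mem_Ioi]
    rcases hy with h | h
    · linarith
    · linarith
  · exact hc.stronglyMeasurableAtFilter isOpen_Ioi x hx

lemma Pf_cont (T : ℝ) {x : ℝ} (hx : 0 < x) : ContinuousAt (Pf T) x := by
  unfold Pf
  exact (by fun_prop : ContinuousAt (fun L : ℝ => (1 + L) ^ 2) x).mul (tf_cont T hx)

lemma hasDerivAt_Ef {T x : ℝ} (hT : 0 < T) (hx : 0 < x) :
    HasDerivAt (Ef T) (-(Ef T x * Pf T x)) x := by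
  refine ((hasDerivAt_left (fun y hy => Pf_cont T hy) hT hx).exp).congr_deriv ?_
  unfold Ef
  ring

lemma Ef_pos (T x : ℝ) : 0 < Ef T x := Real.exp_pos _

lemma hasDerivAt_Jf {T x : ℝ} (hT : 0 < T) (hx : 0 < x) :
    HasDerivAt (Jf T) (-(Qf T x)) x := by
  refine hasDerivAt_left (f := Qf T) (fun y hy => ?_) hT hx
  unfold Qf
  exact (hasDerivAt_Ef hT hy).continuousAt.mul
    ((by fun_prop : ContinuousAt (fun L : ℝ => (1 + L) ^ 2) y).mul (td_cont T hy))

/-- the potential -/
noncomputable def Lam (T L y : ℝ) : ℝ := Ef T (min L T) * y - Jf T (min L T)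

lemma Lam_hub {T L y : ℝ} (h : T ≤ L) : Lam T L y = y := by
  unfold Lam Ef Jf
  rw [min_eq_right h, integral_same, integral_same, Real.exp_zero]
  ring

/-- the level curve through `(a, y)` -/
noncomputable def Yc (T a y x : ℝ) : ℝ := (Ef T a * y - Jf T a + Jf T x) / Ef T x

lemma hasDerivAt_Yc {T a y x : ℝ} (hT : 0 < T) (hx : 0 < x) :
    HasDerivAt (Yc T a y) ((1 + x) ^ 2 * (Yc T a y x * tf T x - td T x)) x := by
  have hE := (Ef_pos T x).ne'
  refine (((hasDerivAt_Jf hT hx).const_add (Ef T a * y - Jf T a)).div (hasDerivAt_Ef hT hx) hE).congr_deriv ?_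
  unfold Yc Qf Pf
  field_simp
  ring

/-- `Y ≤ y` to the right, `Y ≥ y` to the left -/
lemma Yc_sign {T a y x : ℝ} (ha : 0 < a) (haT : a ≤ T) (hy : y ≤ 6 * gg T) (hx : 0 < x)
    (hxT : x ≤ T) : (a ≤ x → Yc T a y x ≤ y) ∧ (x ≤ a → y ≤ Yc T a y x) := by
  have hT : 0 < T := ha.trans_le haT
  have hE := Ef_pos T x
  have key : AntitoneOn (fun x => Ef T a * y - Jf T a + Jf T x - Ef T x * y) (Ioc 0 T) := by
    have hd : ∀ z : ℝ, 0 < z → HasDerivAt (fun x => Ef T a * y - Jf T a + Jf T x - Ef T x * y)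
        (-(Ef T z * (1 + z) ^ 2 * (td T z - y * tf T z))) z := by
      intro z hz
      refine (((hasDerivAt_Jf hT hz).const_add _).sub ((hasDerivAt_Ef hT hz).mul_const y)).congr_deriv ?_
      unfold Qf Pf
      ring
    refine antitoneOn_of_deriv_nonpos (convex_Ioc 0 T) ?_ ?_ ?_
    · exact fun z hz => (hd z hz.1).continuousAt.continuousWithinAt
    · intro z hz
      rw [interior_Ioc] at hz
      exact (hd z hz.1).differentiableAt.differentiableWithinAt
    · intro z hz
      rw [interior_Ioc] at hz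
      rw [(hd z hz.1).deriv]
      have h1 := td_ge hz.1 hz.2.le hy
      have h2 := Ef_pos T z
      have h3 : 0 ≤ Ef T z * (1 + z) ^ 2 * (td T z - y * tf T z) :=
        mul_nonneg (by positivity) (by linarith)
      linarith
  constructor
  · intro h
    have := key ⟨ha, haT⟩ ⟨hx, hxT⟩ h
    simp only at this
    unfold Yc
    rw [div_le_iff₀ hE]
    linarith
  · intro h
    have := key ⟨hx, hxT⟩ ⟨ha, haT⟩ h
    simp only at this
    unfold Yc
    rw [le_div_iff₀ hE]
    linarith

/-- the main computation for `L ≤ T` -/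
lemma phi_nonneg {T a b y : ℝ} (ha : 0 < a) (haT : a ≤ T) (hb : 0 < b) (hbT : b ≤ T)
    (hy : y ≤ 6 * gg T) :
    0 ≤ y * (sM (aa T) a - sM (aa T) b) + gg a ^ 2 * (y - Yc T a y b) + (tf T b - tf T a) := by
  have hT : 0 < T := ha.trans_le haT
  set Φ : ℝ → ℝ := fun x => y * (sM (aa T) a - sM (aa T) x) + gg a ^ 2 * (y - Yc T a y x) +
    (tf T x - tf T a) with hΦ
  have hd : ∀ x : ℝ, 0 < x → HasDerivAt Φ (y * tf T x - td T x +
      gg a ^ 2 * (1 + x) ^ 2 * (td T x - Yc T a y x * tf T x)) x := by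
    intro x hx
    refine (((((hasDerivAt_sM (aa T) hx).const_sub _).const_mul y).add
      (((hasDerivAt_Yc hT hx).const_sub y).const_mul (gg a ^ 2))).add
      ((hasDerivAt_t T hx).sub_const _)).congr_deriv ?_
    unfold tf
    ring
  have h0 : Φ a = 0 := by
    rw [hΦ]
    have hE := (Ef_pos T a).ne'
    have : Yc T a y a = y := by
      unfold Yc
      field_simp
      ring
    simp only [this]
    ring
  have hga : gg a = 1 / (1 + a) := rfl
  rcases le_total a b with h | h
  · have key : MonotoneOn Φ (Icc a T) := by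
      refine monotoneOn_of_deriv_nonneg (convex_Icc a T) ?_ ?_ ?_
      · exact fun x hx => (hd x (ha.trans_le hx.1)).continuousAt.continuousWithinAt
      · intro x hx
        rw [interior_Icc] at hx
        exact (hd x (ha.trans hx.1)).differentiableAt.differentiableWithinAt
      · intro x hx
        rw [interior_Icc] at hx
        have hx0 : 0 < x := ha.trans hx.1
        rw [(hd x hx0).deriv]
        have h1 := (Yc_sign ha haT hy hx0 hx.2.le).1 hx.1.le
        have h2 := tf_nonneg hx0 hx.2.le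
        have h3 := td_ge hx0 hx.2.le hy
        have h4 : 1 ≤ gg a ^ 2 * (1 + x) ^ 2 := by
          rw [hga, ← mul_pow]
          have : 1 ≤ 1 / (1 + a) * (1 + x) := by
            rw [one_div, ← div_eq_inv_mul, le_div_iff₀ (by linarith)]
            linarith [hx.1]
          exact one_le_pow₀ this
        have h5 : y * tf T x - Yc T a y x * tf T x ≥ 0 := by nlinarith
        nlinarith
    have := key ⟨le_rfl, haT⟩ ⟨h, hbT⟩ h
    rw [h0] at this
    exact this
  · have key : AntitoneOn Φ (Ioc 0 a) := by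
      refine antitoneOn_of_deriv_nonpos (convex_Ioc 0 a) ?_ ?_ ?_
      · exact fun x hx => (hd x hx.1).continuousAt.continuousWithinAt
      · intro x hx
        rw [interior_Ioc] at hx
        exact (hd x hx.1).differentiableAt.differentiableWithinAt
      · intro x hx
        rw [interior_Ioc] at hx
        rw [(hd x hx.1).deriv]
        have hxT : x ≤ T := hx.2.le.trans haT
        have h1 := (Yc_sign ha haT hy hx.1 hxT).2 hx.2.le
        have h2 := tf_nonneg hx.1 hxT
        have h3 := td_ge hx.1 hxT hy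
        have h4 : gg a ^ 2 * (1 + x) ^ 2 ≤ 1 := by
          rw [hga, ← mul_pow]
          have h6 : 1 / (1 + a) * (1 + x) ≤ 1 := by
            rw [one_div, ← div_eq_inv_mul, div_le_one (by linarith)]
            linarith [hx.2]
          have h7 : 0 ≤ 1 / (1 + a) * (1 + x) :=
            mul_nonneg (by positivity) (by linarith [hx.1])
          exact pow_le_one₀ h7 h6
        have h8 : 0 ≤ gg a ^ 2 * (1 + x) ^ 2 := by positivity
        have h5 : td T x - Yc T a y x * tf T x ≤ td T x - y * tf T x := by nlinarith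
        nlinarith [mul_le_mul_of_nonneg_left h5 h8]
    have := key ⟨hb, h⟩ ⟨ha, le_rfl⟩ h
    rw [h0] at this
    exact this

/-- **Step 4**: if `Λ_x ≤ Λ_v` and `y_v ≤ 6 g(T)`, then `B_vx ≥ 0` -/
theorem B_nonneg {T Lv Lx yv yx : ℝ} (hT : 0 < T) (hv : 0 < Lv) (hx : 0 < Lx)
    (hy : yv ≤ 6 * gg T) (h : Lam T Lx yx ≤ Lam T Lv yv) :
    0 ≤ yv * (sg T Lv - sg T Lx) + gg (min Lv T) ^ 2 * (yv - yx) + (tt T Lx - tt T Lv) := by
  have ha : 0 < min Lv T := lt_min hv hT
  have hb : 0 < min Lx T := lt_min hx hT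
  have h1 := phi_nonneg ha (min_le_right _ _) hb (min_le_right _ _) hy
  have h2 : yx ≤ Yc T (min Lv T) yv (min Lx T) := by
    unfold Yc
    rw [le_div_iff₀ (Ef_pos _ _)]
    unfold Lam at h
    linarith
  rw [tt_eq_tf hT, tt_eq_tf hT]
  unfold sg
  have h3 : gg (min Lv T) ^ 2 * (yv - Yc T (min Lv T) yv (min Lx T)) ≤
      gg (min Lv T) ^ 2 * (yv - yx) :=
    mul_le_mul_of_nonneg_left (by linarith) (by positivity)
  linarith

end Pool.Agent.Helper25.HC
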