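import Pool.Agent.Helper25.HC.Step3

/-!
# The exact form of `C_v`, the inequality (C*), the lower bound of `R_v`, Step 2
-/

set_option autoImplicit false

namespace Pool.Agent.Helper25.HC

open Finset Classical Pool.Agent.Helper65.HC

/-- `s = σ - σ(T)` (flattened) -/
noncomputable def ss (T L : ℝ) : ℝ := sg T L - sM (aa T) T

/-- `c = -σ(T)` -/
noncomputable def cT (T : ℝ) : ℝ := gg T * (aa T - gg T)

/-- `C_T(y)` -/
noncomputable def CT (T y : ℝ) : ℝ :=
  gg T * (y - gg T) + aa T * (y * Real.log (y / gg T) - y + gg T)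

lemma ss_nonneg {T L : ℝ} (hT : 0 < T) (hL : 0 ≤ L) : 0 ≤ ss T L := by
  unfold ss
  have h1 : sM (aa T) T = sg T (max L T) := by
    rw [sg, min_eq_right (le_max_right _ _)]
  rw [h1]
  linarith [sg_antitone hT hL (le_max_left L T)]

lemma ss_hub {T L : ℝ} (h : T ≤ L) : ss T L = 0 := by
  unfold ss
  rw [sg, min_eq_right h, sub_self]

lemma sg_eq_ss {T L : ℝ} (hT : 0 < T) : sg T L = ss T L - cT T := by
  unfold ss cT
  rw [← neg_sg_top hT]
  ring

lemma cT_pos {T : ℝ} (hT : 0 < T) : 0 < cT T := by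
  have h1 := two_gg_le_aa hT
  have h2 := gg_pos hT.le
  unfold cT
  exact mul_pos h2 (by linarith)

/-- `t` is antitone -/
lemma tf_antitone (T : ℝ) : AntitoneOn (tf T) (Set.Ioc 0 T) := by
  refine antitoneOn_of_deriv_nonpos (convex_Ioc 0 T) ?_ ?_ ?_
  · exact fun x hx => (tf_cont T hx.1).continuousWithinAt
  · intro x hx
    rw [interior_Ioc] at hx
    exact (hasDerivAt_t T hx.1).differentiableAt.differentiableWithinAt
  · intro x hx
    rw [interior_Ioc] at hx
    have h0 : HasDerivAt (tf T) (-(td T x)) x := hasDerivAt_t T hx.1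
    rw [h0.deriv]
    have h1 := td_ge (T := T) (y := 0) hx.1 hx.2.le (by
      have := gg_pos (hx.1.trans hx.2).le
      linarith)
    linarith

/-- `6 g s ≤ t` -/
lemma ss_le {T L : ℝ} (hT : 0 < T) (hL : 0 < L) : 6 * gg T * ss T L ≤ tt T L := by
  rcases le_total T L with h | h
  · rw [ss_hub h, mul_zero, tt, if_neg (not_lt.2 h)]
  · have key : AntitoneOn (fun x => tf T x - 6 * gg T * (sM (aa T) x - sM (aa T) T)) (Set.Icc L T) := by
      have hd : ∀ x : ℝ, 0 < x → HasDerivAt
          (fun x => tf T x - 6 * gg T * (sM (aa T) x - sM (aa T) T))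
          (-(td T x) + 6 * gg T * tf T x) x := by
        intro x hx
        have h0 : HasDerivAt (tf T) (-(td T x)) x := hasDerivAt_t T hx
        refine (h0.sub (((hasDerivAt_sM (aa T) hx).sub_const _).const_mul (6 * gg T))).congr_deriv ?_
        unfold tf
        ring
      refine antitoneOn_of_deriv_nonpos (convex_Icc L T) ?_ ?_ ?_
      · exact fun x hx => (hd x (hL.trans_le hx.1)).continuousAt.continuousWithinAt
      · intro x hx
        rw [interior_Icc] at hx
        exact (hd x (hL.trans hx.1)).differentiableAt.differentiableWithinAt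
      · intro x hx
        rw [interior_Icc] at hx
        rw [(hd x (hL.trans hx.1)).deriv]
        have := td_ge (T := T) (y := 6 * gg T) (hL.trans hx.1) hx.2.le le_rfl
        linarith
    have h1 := key ⟨le_rfl, h⟩ ⟨h, le_rfl⟩ h
    simp only [sub_self, mul_zero, sub_zero] at h1
    have h2 : tf T T = 0 := by
      unfold tf
      rw [aa_mul_uu hT, sub_self]
    rw [h2] at h1
    rw [tt_eq_tf hT, min_eq_left h]
    unfold ss
    rw [sg, min_eq_left h]
    linarith

/-- `C_T` in the original form -/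
lemma CT_eq {T y : ℝ} (hT : 0 < T) (hy : 0 < y) :
    CT T y = y * (1 - aa T + aa T * Real.log y) + y * cT T * T + cT T := by
  have hg := gg_pos hT.le
  have h1 : Real.log (y / gg T) = Real.log y + Real.log (1 + T) := by
    rw [Real.log_div hy.ne' hg.ne', log_gg hT.le]
    ring
  unfold CT cT
  rw [h1]
  have h2 : aa T * hl T = (T * gg T) ^ 2 := by
    unfold aa gg
    have := (hl_pos hT).ne'
    field_simp
  have h3 : hl T = Real.log (1 + T) - T * gg T := by
    unfold hl gg
    ring
  have h4 : gg T * (1 + T) = 1 := by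
    unfold gg
    have : (1 : ℝ) + T ≠ 0 := by linarith
    field_simp
  have h5 : T * gg T = 1 - gg T := by linarith
  rw [h3, h5] at h2
  have h6 : Real.log (1 + T) * aa T = (1 - gg T) ^ 2 + aa T * (1 - gg T) := by linarith
  linear_combination y * h6 - y * (aa T - gg T) * h5

lemma CT_nonneg {T y : ℝ} (hT : 0 < T) (hy : gg T ≤ y) : 0 ≤ CT T y := by
  have hg := gg_pos hT.le
  have h1 := D_nonneg (hg.trans_le hy) hg
  have h2 := mul_nonneg (aa_pos hT).le h1
  have h3 := mul_nonneg hg.le (sub_nonneg.2 hy)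
  unfold CT
  linarith

universe u

variable {V : Type u} [Fintype V] (G : SimpleGraph V)

/-- `b_v` -/
noncomputable def bb (T : ℝ) (w : V → ℝ) (v : V) : ℝ := ∑ x ∈ cn G v, w x * tt T (Lw G w x)

/-- `(K s)_v` -/
noncomputable def Ks (T : ℝ) (w : V → ℝ) (v : V) : ℝ := ∑ x ∈ cn G v, w x * ss T (Lw G w x)

variable {G}
variable {T : ℝ} {w y : V → ℝ}

lemma Lw_pos' (hw : ∀ v, 0 ≤ w v) {v : V} (hv : 0 < w v) : 0 < Lw G w v :=
  hv.trans_le (le_Lw G hw (self_mem_cn G v))

/-- the exact form of `C_v < 0` -/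
lemma C_neg (hT : 0 < T) (hc : Crit G T w y) {v : V} (hv : 0 < w v) :
    CT T (y v) + y v * (cT T * (Lw G w v - T) - Ks G T w v + RR G T w v) - ss T (Lw G w v) +
      bb G T w v < 0 := by
  have hneg := hc.neg v hv
  have e1 := Phi_diff G T w v
  have e2 : ∑ x ∈ cn G v, w x * sg T (Lw G w x) = Ks G T w v - cT T * Lw G w v := by
    unfold Ks
    rw [Lw, mul_sum, ← sum_sub_distrib]
    refine sum_congr rfl fun x _ => ?_
    rw [sg_eq_ss hT]
    ring
  rw [e2] at e1
  have e3 : y v * (1 - aa T + aa T * Real.log (y v) + Phi G T (kill G v w) - Phi G T w) =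
      y v * (1 - aa T + aa T * Real.log (y v)) + y v * (Phi G T (kill G v w) - Phi G T w) := by ring
  rw [e3, e1, dPhi, sg_eq_ss hT] at hneg
  rw [CT_eq hT (hc.y_pos v)]
  unfold bb
  linarith

lemma bb_nonneg (hw : ∀ v, 0 ≤ w v) (v : V) : 0 ≤ bb G T w v := by
  refine sum_nonneg fun x _ => ?_
  rcases (hw x).eq_or_lt with h | h
  · rw [← h, zero_mul]
  · exact mul_nonneg h.le (tt_nonneg (Lw_pos' hw h))

lemma Ks_le (hT : 0 < T) (hw : ∀ v, 0 ≤ w v) (v : V) : 6 * gg T * Ks G T w v ≤ bb G T w v := by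
  unfold Ks bb
  rw [mul_sum]
  refine sum_le_sum fun x _ => ?_
  rcases (hw x).eq_or_lt with h | h
  · rw [← h]; simp
  · have := mul_le_mul_of_nonneg_left (ss_le hT (Lw_pos' (G := G) hw h)) h.le
    linarith

/-- **(C*)** -/
lemma C_star (hT : 0 < T) (hc : Crit G T w y) {v : V} (hv : 0 < w v) :
    CT T (y v) + bb G T w v * (1 - y v / (6 * gg T)) + y v * (cT T * (Lw G w v - T)) -
      ss T (Lw G w v) < 0 := by
  have h1 := C_neg hT hc hv
  have h2 := mul_nonneg (hc.y_pos v).le (RR_nonneg G hT hc.w_nonneg v)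
  have hg := gg_pos hT.le
  have h3 : Ks G T w v ≤ bb G T w v / (6 * gg T) := by
    rw [le_div_iff₀ (by positivity)]
    linarith [Ks_le (G := G) hT hc.w_nonneg v]
  have h4 := mul_le_mul_of_nonneg_left h3 (hc.y_pos v).le
  have h5 : bb G T w v * (1 - y v / (6 * gg T)) =
      bb G T w v - y v * (bb G T w v / (6 * gg T)) := by ring
  rw [h5]
  linarith

/-- convexity of the flattened potential -/
lemma sg_convex (hT : 0 < T) {a L : ℝ} (ha : 0 < a) (h : a ≤ L) :
    (L - a) * tt T L ≤ sg T a - sg T L := by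
  rcases le_or_gt T L with h1 | h1
  · rw [tt, if_neg (not_lt.2 h1), mul_zero]
    linarith [sg_antitone hT ha.le h]
  · have key : AntitoneOn (fun x => sM (aa T) x + tf T L * x) (Set.Icc a L) := by
      have hd : ∀ x : ℝ, 0 < x → HasDerivAt (fun x => sM (aa T) x + tf T L * x)
          (-(tf T x) + tf T L) x := by
        intro x hx
        refine ((hasDerivAt_sM (aa T) hx).add ((hasDerivAt_id x).const_mul (tf T L))).congr_deriv ?_
        unfold tf
        ring
      refine antitoneOn_of_deriv_nonpos (convex_Icc a L) ?_ ?_ ?_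
      · exact fun x hx => (hd x (ha.trans_le hx.1)).continuousAt.continuousWithinAt
      · intro x hx
        rw [interior_Icc] at hx
        exact (hd x (ha.trans hx.1)).differentiableAt.differentiableWithinAt
      · intro x hx
        rw [interior_Icc] at hx
        rw [(hd x (ha.trans hx.1)).deriv]
        have := tf_antitone T ⟨ha.trans hx.1, (hx.2.trans h1).le⟩ ⟨ha.trans_le h, h1.le⟩ hx.2.le
        linarith
    have h2 := key ⟨le_rfl, h⟩ ⟨h, le_rfl⟩ h
    simp only at h2
    rw [tt_eq_tf hT, min_eq_left h1.le, sg, sg, min_eq_left h1.le, min_eq_left (h.trans h1.le)]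
    linarith

/-- `R_v ≥ ∑_{x ∈ X} w_x (b_x - b_v)` for `X ⊆ N[v]` -/
lemma RR_ge (hT : 0 < T) (hw : ∀ v, 0 ≤ w v) (v : V) {X : Finset V} (hX : X ⊆ cn G v) :
    ∑ x ∈ X, w x * (bb G T w x - bb G T w v) ≤ RR G T w v := by
  set N := univ.filter (fun z => z ∉ cn G v) with hN
  have htt : ∀ z, 0 ≤ w z * tt T (Lw G w z) := by
    intro z
    rcases (hw z).eq_or_lt with h | h
    · rw [← h, zero_mul]
    · exact mul_nonneg h.le (tt_nonneg (Lw_pos' hw h))
  -- convexity
  have h1 : ∑ z ∈ N, w z * tt T (Lw G w z) * ov G w v z ≤ RR G T w v := by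
    unfold RR
    refine sum_le_sum fun z hz => ?_
    rcases (hw z).eq_or_lt with h | h
    · rw [← h]; simp
    · have hz' : z ∉ cn G v := (mem_filter.1 hz).2
      have hpos : 0 < Lw G (kill G v w) z := by
        refine h.trans_le ?_
        have h2 := le_Lw G (kill_nonneg G hw v) (self_mem_cn G z)
        have h3 : kill G v w z = w z := by
          unfold kill
          rw [if_neg hz']
        rwa [h3] at h2
      have hk := Lw_kill G v w z
      have h4 := sg_convex hT hpos (by rw [hk]; linarith [ov_nonneg G hw v z] : Lw G (kill G v w) z ≤ Lw G w z)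
      have h5 : Lw G w z - Lw G (kill G v w) z = ov G w v z := by rw [hk]; ring
      rw [h5] at h4
      have := mul_le_mul_of_nonneg_left h4 h.le
      linarith
  -- exchange of the sums
  have h2 : ∑ z ∈ N, w z * tt T (Lw G w z) * ov G w v z =
      ∑ x ∈ cn G v, w x * ∑ z ∈ (cn G x).filter (fun z => z ∉ cn G v), w z * tt T (Lw G w z) := by
    unfold ov
    simp only [mul_sum]
    rw [Finset.sum_comm' (s' := fun x => (cn G x).filter (fun z => z ∉ cn G v)) (t' := cn G v)]
    · exact sum_congr rfl fun x _ => sum_congr rfl fun z _ => by ring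
    · intro z x
      rw [hN, mem_filter, mem_filter, mem_filter, mem_cn_comm G (v := z) (u := x)]
      simp only [mem_univ, true_and]
      tauto
  -- termwise
  have h3 : ∀ x, bb G T w x - bb G T w v ≤
      ∑ z ∈ (cn G x).filter (fun z => z ∉ cn G v), w z * tt T (Lw G w z) := by
    intro x
    have h4 : bb G T w x = ∑ z ∈ (cn G x).filter (fun z => z ∈ cn G v), w z * tt T (Lw G w z) +
        ∑ z ∈ (cn G x).filter (fun z => z ∉ cn G v), w z * tt T (Lw G w z) := by
      unfold bb
      rw [sum_filter_add_sum_filter_not]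
    have h5 : ∑ z ∈ (cn G x).filter (fun z => z ∈ cn G v), w z * tt T (Lw G w z) ≤ bb G T w v := by
      unfold bb
      refine sum_le_sum_of_subset_of_nonneg ?_ fun z _ _ => htt z
      intro z hz
      exact (mem_filter.1 hz).2
    linarith
  calc ∑ x ∈ X, w x * (bb G T w x - bb G T w v)
      ≤ ∑ x ∈ X, w x * ∑ z ∈ (cn G x).filter (fun z => z ∉ cn G v), w z * tt T (Lw G w z) :=
        sum_le_sum fun x _ => mul_le_mul_of_nonneg_left (h3 x) (hw x)
    _ ≤ ∑ x ∈ cn G v, w x * ∑ z ∈ (cn G x).filter (fun z => z ∉ cn G v), w z * tt T (Lw G w z) := by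
        refine sum_le_sum_of_subset_of_nonneg hX fun x _ _ => ?_
        exact mul_nonneg (hw x) (sum_nonneg fun z _ => htt z)
    _ ≤ RR G T w v := by rw [← h2]; exact h1

/-- **Step 2**: a hub with small `e_u` has `y_u < g(T)`, given (J3) -/
lemma hub_small (hT : 0 < T) (hc : Crit G T w y)
    (j3 : ∀ L z : ℝ, 0 < L → L < T → 6 * gg T < z → z ≤ 1 →
      ph T * (z * ss T L - tt T L) ≤ CT T z * uu L)
    {u : V} (hu : 0 < w u) (hhub : T ≤ Lw G w u)
    (he : ∑ x ∈ (cn G u).filter (fun x => Lw G w x < T), w x * uu (Lw G w x) < ph T) :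
    y u < gg T := by
  have hg := gg_pos hT.le
  have h1 := C_neg hT hc hu
  rw [ss_hub hhub] at h1
  have h2 : 0 ≤ y u * (cT T * (Lw G w u - T)) :=
    mul_nonneg (hc.y_pos u).le (mul_nonneg (cT_pos hT).le (by linarith))
  have h3 := mul_nonneg (hc.y_pos u).le (RR_nonneg G hT hc.w_nonneg u)
  -- first `y u ≤ 6 g`
  have h6 : y u ≤ 6 * gg T := by
    by_contra h6
    push Not at h6
    have hφ : 0 < ph T := ph_pos hT.le
    have hCT : 0 ≤ CT T (y u) := CT_nonneg hT (by linarith)
    have h4 : ph T * (y u * Ks G T w u - bb G T w u) ≤ CT T (y u) *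
        ∑ x ∈ (cn G u).filter (fun x => Lw G w x < T), w x * uu (Lw G w x) := by
      have e1 : y u * Ks G T w u - bb G T w u =
          ∑ x ∈ (cn G u).filter (fun x => Lw G w x < T),
            w x * (y u * ss T (Lw G w x) - tt T (Lw G w x)) := by
        unfold Ks bb
        rw [mul_sum, ← sum_sub_distrib, sum_filter]
        refine sum_congr rfl fun x _ => ?_
        split_ifs with h
        · ring
        · push Not at h
          rw [ss_hub h, tt, if_neg (not_lt.2 h)]
          ring
      rw [e1, mul_sum, mul_sum]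
      refine sum_le_sum fun x hx => ?_
      rcases (hc.w_nonneg x).eq_or_lt with h | h
      · rw [← h]; simp
      · have h5 := j3 (Lw G w x) (y u) (Lw_pos' hc.w_nonneg h) (mem_filter.1 hx).2 h6 (hc.y_le u)
        have := mul_le_mul_of_nonneg_left h5 h.le
        linarith
    have h5 : CT T (y u) * ∑ x ∈ (cn G u).filter (fun x => Lw G w x < T), w x * uu (Lw G w x) ≤
        CT T (y u) * ph T := mul_le_mul_of_nonneg_left he.le hCT
    have h7 : ph T * (y u * Ks G T w u - bb G T w u) ≤ ph T * CT T (y u) := by linarith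
    have h8 := le_of_mul_le_mul_left h7 hφ
    linarith
  by_contra h7
  push Not at h7
  have hCT : 0 ≤ CT T (y u) := CT_nonneg hT h7
  have h8 := Ks_le (G := G) hT hc.w_nonneg u
  have h9 : 0 ≤ Ks G T w u := by
    refine sum_nonneg fun x _ => mul_nonneg (hc.w_nonneg x) ?_
    exact ss_nonneg hT (Lw_nonneg G hc.w_nonneg x)
  have h10 : y u * Ks G T w u ≤ 6 * gg T * Ks G T w u := mul_le_mul_of_nonneg_right h6 h9
  linarith

end Pool.Agent.Helper25.HC
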