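import Pool.Agent.Helper25.HC.Lam
import Pool.Agent.Helper65.HC.Final

/-!
# The exact identity (Step 3) and the base case `T ≤ 5`
-/

set_option autoImplicit false

namespace Pool.Agent.Helper25.HC

open Finset Classical Pool.Agent.Helper65.HC

universe u

variable {V : Type u} [Fintype V] (G : SimpleGraph V)

/-- `B_vx` -/
noncomputable def Bvx (T Lv yv Lx yx : ℝ) : ℝ :=
  yv * (sg T Lv - sg T Lx) + gg (min Lv T) ^ 2 * (yv - yx) + (tt T Lx - tt T Lv)

/-- `R_v`: gain of the flattened potential outside `N[v]` -/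
noncomputable def RR (T : ℝ) (w : V → ℝ) (v : V) : ℝ :=
  ∑ x ∈ univ.filter (fun x => x ∉ cn G v), w x * (sg T (Lw G (kill G v w) x) - sg T (Lw G w x))

lemma RR_term_nonneg {T : ℝ} (hT : 0 < T) {w : V → ℝ} (hw : ∀ v, 0 ≤ w v) (v x : V) :
    0 ≤ w x * (sg T (Lw G (kill G v w) x) - sg T (Lw G w x)) := by
  refine mul_nonneg (hw x) (sub_nonneg.2 (sg_antitone hT (Lw_nonneg G (kill_nonneg G hw v) x) ?_))
  rw [Lw_kill]
  linarith [ov_nonneg G hw v x]

lemma RR_nonneg {T : ℝ} (hT : 0 < T) {w : V → ℝ} (hw : ∀ v, 0 ≤ w v) (v : V) : 0 ≤ RR G T w v :=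
  sum_nonneg fun x _ => RR_term_nonneg G hT hw v x

lemma Phi_diff (T : ℝ) (w : V → ℝ) (v : V) :
    Phi G T (kill G v w) - Phi G T w = RR G T w v - ∑ x ∈ cn G v, w x * sg T (Lw G w x) := by
  unfold Phi RR
  rw [pot_kill, pot_split G (sg T) v w]
  simp only [mul_sub, sum_sub_distrib]
  ring

/-- `D(y|g) = y log (y/g) - y + g ≥ 0` -/
lemma D_nonneg {y g : ℝ} (hy : 0 < y) (hg : 0 < g) : 0 ≤ y * Real.log (y / g) - y + g := by
  have h1 := Real.log_le_sub_one_of_pos (div_pos hg hy)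
  have h2 : Real.log (g / y) = -Real.log (y / g) := by
    rw [← Real.log_inv, inv_div]
  rw [h2] at h1
  have h3 := mul_le_mul_of_nonneg_left h1 hy.le
  have h4 : y * (g / y - 1) = g - y := by field_simp
  rw [h4] at h3
  linarith

lemma two_gg_le_aa {T : ℝ} (hT : 0 < T) : 2 * gg T ≤ aa T := by
  unfold aa gg
  have h1 := two_log_lt (show (1 : ℝ) < 1 + T by linarith)
  have h2 := hl_pos hT
  rw [le_div_iff₀ h2]
  have h3 : (1 + T) * (2 * Real.log (1 + T)) < (1 + T) * ((1 + T) - (1 + T)⁻¹) :=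
    mul_lt_mul_of_pos_left h1 (by linarith)
  have h4 : (1 + T) * ((1 + T) - (1 + T)⁻¹) = T ^ 2 + 2 * T := by
    have : (1 : ℝ) + T ≠ 0 := by linarith
    field_simp
    ring
  have h5 : 2 * (1 / (1 + T)) * hl T = 2 * ((1 + T) * hl T) / (1 + T) ^ 2 := by
    have : (1 : ℝ) + T ≠ 0 := by linarith
    field_simp
  rw [h5, div_pow]
  refine div_le_div_of_nonneg_right ?_ (by positivity)
  have h6 : (1 + T) * hl T = (1 + T) * Real.log (1 + T) - T := by
    unfold hl
    have : (1 : ℝ) + T ≠ 0 := by linarith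
    field_simp
  rw [h6]
  linarith

/-- `c = -σ(T) = g (a - g)` -/
lemma neg_sg_top {T : ℝ} (hT : 0 < T) : -sM (aa T) T = gg T * (aa T - gg T) := by
  unfold sM
  have h1 := mul_uu hT
  have h2 := aa_mul_uu hT
  have h3 : gg T * (1 + T) = 1 := by
    unfold gg
    have : (1 : ℝ) + T ≠ 0 := by linarith
    field_simp
  have h4 : ph T = gg T + T * uu T := by linarith
  rw [h4]
  linear_combination T * h2 + gg T * h3

/-- the scalar identity below the threshold -/
lemma scal_low {M L y : ℝ} (hL : 0 < L) :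
    y - (gg L - M * ph L) - gg L ^ 2 * y + gg L ^ 2 - M * y * Real.log (1 + L) - M * gg L -
      y * (gg L - M * ph L) * L - gg L ^ 2 * y * L + (gg L ^ 2 - M * uu L) * L = 0 := by
  have h1 := mul_uu hL
  have h2 : L * ph L = Real.log (1 + L) := mul_ph
  have h3 : gg L * (1 + L) = 1 := by
    unfold gg
    have : (1 : ℝ) + L ≠ 0 := by linarith
    field_simp
  rw [← h2]
  linear_combination (-M) * h1 + (gg L - gg L * y - y) * h3

/-- **Step 3** -/
theorem step3 {T : ℝ} (hT : 0 < T) {w y : V → ℝ} (hc : Crit G T w y) {v : V} (hv : 0 < w v) :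
    aa T * (y v * Real.log (y v / gg (min (Lw G w v) T)) - y v + gg (min (Lw G w v) T)) +
      ∑ x ∈ cn G v, w x * Bvx T (Lw G w v) (y v) (Lw G w x) (y x) + y v * RR G T w v +
      gg T * (aa T - 2 * gg T) * (y v * max (Lw G w v - T) 0) < 0 := by
  have hL : 0 < Lw G w v := hv.trans_le (le_Lw G hc.w_nonneg (self_mem_cn G v))
  have hneg := hc.neg v hv
  have hl1 := hc.l1 v
  set L := Lw G w v with hLdef
  have hLsum : ∑ x ∈ cn G v, w x = L := rfl
  set γ := gg (min L T) with hγ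
  have hmin : 0 < min L T := lt_min hL hT
  have hγ0 : 0 < γ := gg_pos hmin.le
  have e1 : aa T * Real.log (y v) + Phi G T (kill G v w) - Phi G T w =
      aa T * Real.log (y v) + RR G T w v - ∑ x ∈ cn G v, w x * sg T (Lw G w x) := by
    have := Phi_diff G T w v
    linarith
  have e2 : ∑ x ∈ cn G v, w x * Bvx T L (y v) (Lw G w x) (y x) =
      y v * (sg T L * L - ∑ x ∈ cn G v, w x * sg T (Lw G w x)) +
      γ ^ 2 * (y v * L - ∑ x ∈ cn G v, w x * y x) +
      (∑ x ∈ cn G v, w x * tt T (Lw G w x) - tt T L * L) := by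
    have e0 : ∀ x ∈ cn G v, w x * Bvx T L (y v) (Lw G w x) (y x) =
        (y v * sg T L + γ ^ 2 * y v - tt T L) * w x - y v * (w x * sg T (Lw G w x)) -
          γ ^ 2 * (w x * y x) + w x * tt T (Lw G w x) := by
      intro x _
      unfold Bvx
      rw [← hγ]
      ring
    rw [sum_congr rfl e0]
    simp only [sum_add_distrib, sum_sub_distrib, ← mul_sum]
    rw [hLsum]
    ring
  have e3 : Real.log (y v / γ) = Real.log (y v) + Real.log (1 + min L T) := by
    rw [Real.log_div (hc.y_pos v).ne' hγ0.ne', hγ, log_gg hmin.le]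
    ring
  have e4 : dPhi G T w v = sg T L - ∑ x ∈ cn G v, w x * tt T (Lw G w x) := rfl
  rw [e4] at hneg
  have hγ2 : 0 ≤ γ ^ 2 := by positivity
  have h5 : 0 ≤ γ ^ 2 * (y v + ∑ x ∈ cn G v, w x * y x - 1) := mul_nonneg hγ2 (by linarith)
  -- the scalar identity
  have key : y v - sg T L - γ ^ 2 * y v + γ ^ 2 - aa T * y v * Real.log (1 + min L T) -
      aa T * γ - y v * sg T L * L - γ ^ 2 * y v * L + tt T L * L =
      gg T * (aa T - 2 * gg T) * (y v * max (L - T) 0) := by
    rcases le_total L T with h | h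
    · have h6 := scal_low (M := aa T) (y := y v) hL
      rw [hγ, min_eq_left h, max_eq_right (by linarith), tt_eq_of_le hT h, sg, min_eq_left h, sM]
      linarith
    · have h6 := scal_low (M := aa T) (y := y v) hT
      have h7 := neg_sg_top hT
      have h8 : tt T L = 0 := by rw [tt, if_neg (not_lt.2 h)]
      have h9 := aa_mul_uu hT
      rw [hγ, min_eq_right h, max_eq_left (by linarith), h8, sg, min_eq_right h]
      rw [sM] at h7 ⊢
      linear_combination h6 + (L - T) * y v * h7 + T * h9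
  rw [e2, e3]
  have e5 : y v * (1 - aa T + aa T * Real.log (y v) + Phi G T (kill G v w) - Phi G T w) =
      y v * (1 - aa T) + y v * (aa T * Real.log (y v) + RR G T w v -
        ∑ x ∈ cn G v, w x * sg T (Lw G w x)) := by
    rw [← e1]
    ring
  rw [e5] at hneg
  linarith

/-- **Base case**: no critical configuration for `T ≤ 5`. -/
theorem base_case {T : ℝ} (hT : 0 < T) (hT5 : T ≤ 5) {w y : V → ℝ} (hc : Crit G T w y) : False := by
  obtain ⟨v0, hv0⟩ := hc.w_ne
  obtain ⟨v, hv, hmax⟩ := (univ.filter (fun v => 0 < w v)).exists_max_image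
    (fun v => Lam T (Lw G w v) (y v)) ⟨v0, by simp [hv0]⟩
  rw [mem_filter] at hv
  have hLpos : ∀ x, 0 < w x → 0 < Lw G w x := fun x hx =>
    hx.trans_le (le_Lw G hc.w_nonneg (self_mem_cn G x))
  have h6 : y v ≤ 6 * gg T := by
    refine (hc.y_le v).trans ?_
    unfold gg
    rw [mul_one_div, le_div_iff₀ (by linarith)]
    linarith
  have h := step3 G hT hc hv.2
  have hγ0 : 0 < gg (min (Lw G w v) T) := gg_pos (lt_min (hLpos v hv.2) hT).le
  have h1 := D_nonneg (hc.y_pos v) hγ0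
  have h2 : 0 ≤ ∑ x ∈ cn G v, w x * Bvx T (Lw G w v) (y v) (Lw G w x) (y x) := by
    refine sum_nonneg fun x _ => ?_
    rcases (hc.w_nonneg x).eq_or_lt with h0 | h0
    · rw [← h0, zero_mul]
    · exact mul_nonneg h0.le (B_nonneg hT (hLpos v hv.2) (hLpos x h0) h6
        (hmax x (by simp [h0])))
  have h3 := mul_nonneg (hc.y_pos v).le (RR_nonneg G hT hc.w_nonneg v)
  have h4 : 0 ≤ gg T * (aa T - 2 * gg T) * (y v * max (Lw G w v - T) 0) := by
    have h5 := two_gg_le_aa hT
    have h7 := gg_pos hT.le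
    have h8 := hc.y_pos v
    exact mul_nonneg (mul_nonneg h7.le (by linarith)) (mul_nonneg h8.le (le_max_right _ _))
  have h9 := mul_nonneg (aa_pos hT).le h1
  linarith

/-- the Caro-Wei inequality when all `L_v ≤ 5` -/
theorem caroWei_five {w : V → ℝ} (hw : ∀ v, 0 ≤ w v) (hL : ∀ v, Lw G w v ≤ 5) :
    ∑ v, w v * gg (Lw G w v) ≤ mu G w :=
  caroWei_of_base G (by norm_num : (0 : ℝ) < 5)
    (fun _ _ hc => base_case G (by norm_num) le_rfl hc) hw hL

end Pool.Agent.Helper25.HC
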